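import Mathlib

/-!
# Local and union page numbers: definitions
-/

namespace Pool.Agent.PageNum

/-- With respect to the spine ordering `o`, the edges `uv` and `xy` cross in the pattern
`u < x < v < y`. (Quantified over all ordered pairs of edges this covers both patterns.) -/
def Cross {V : Type*} (o : LinearOrder V) (u v x y : V) : Prop :=
  o.lt u x ∧ o.lt x v ∧ o.lt v y

/-- `G` has a `k`-local book embedding: a total order of the vertices and a partition of the
edges into pages (the edge `e` is on page `page e`) such that no page contains two crossing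
edges and every vertex is incident with edges of at most `k` pages. -/
def LocalBook {V : Type*} (G : SimpleGraph V) (k : ℕ) : Prop :=
  ∃ (o : LinearOrder V) (page : Sym2 V → ℕ),
    (∀ u v x y, G.Adj u v → G.Adj x y → page s(u, v) = page s(x, y) → ¬ Cross o u v x y) ∧
    ∀ v, {p | ∃ w, G.Adj v w ∧ page s(v, w) = p}.encard ≤ k

/-- The graph formed by the edges on page `p`. -/
def pageGraph {V : Type*} (G : SimpleGraph V) (page : Sym2 V → ℕ) (p : ℕ) : SimpleGraph V where
  Adj u v := G.Adj u v ∧ page s(u, v) = p
  symm := ⟨fun u v h => ⟨h.1.symm, by rw [Sym2.eq_swap]; exact h.2⟩⟩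
  loopless := ⟨fun u h => G.loopless.irrefl u h.1⟩

/-- `G` has a union embedding with `k` pages: a total order of the vertices and a partition of
the edges into `k` pages such that no two edges in the same connected component of the graph
of a page cross. -/
def UnionBook {V : Type*} (G : SimpleGraph V) (k : ℕ) : Prop :=
  ∃ (o : LinearOrder V) (page : Sym2 V → ℕ),
    (∀ e ∈ G.edgeSet, page e < k) ∧
    ∀ u v x y, G.Adj u v → G.Adj x y → page s(u, v) = page s(x, y) →
      (pageGraph G page (page s(u, v))).Reachable u x → ¬ Cross o u v x y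

/-- The local page number. -/
noncomputable def localPageNumber {V : Type*} (G : SimpleGraph V) : ℕ :=
  sInf {k | LocalBook G k}

/-- The union page number. -/
noncomputable def unionPageNumber {V : Type*} (G : SimpleGraph V) : ℕ :=
  sInf {k | UnionBook G k}

/-- A single page per edge: the local page number set is nonempty. -/
theorem localBook_exists {V : Type*} [Finite V] (G : SimpleGraph V) : ∃ k, LocalBook G k := by
  classical
  haveI := Fintype.ofFinite V
  obtain ⟨o⟩ : Nonempty (LinearOrder V) :=
    ⟨LinearOrder.lift' (Fintype.equivFin V) (Fintype.equivFin V).injective⟩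
  let en := (Fintype.equivFin (Sym2 V))
  refine ⟨Fintype.card (Sym2 V), o, fun e => (en e : ℕ), ?_, ?_⟩
  · intro u v x y _ _ h hc
    have h' : s(u, v) = s(x, y) := en.injective (Fin.ext h)
    letI := o
    obtain ⟨h1, h2, h3⟩ := hc
    have h1' : u < x := h1
    have h2' : x < v := h2
    have h3' : v < y := h3
    rcases Sym2.eq_iff.1 h' with ⟨rfl, rfl⟩ | ⟨rfl, rfl⟩
    · exact lt_irrefl _ h1'
    · exact lt_irrefl _ (h1'.trans (h2'.trans h3'))
  · intro v
    refine (Set.encard_le_encard (t := ((Finset.range (Fintype.card (Sym2 V)) : Finset ℕ) : Set ℕ)) ?_).trans ?_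
    · rintro p ⟨w, _, rfl⟩
      simp
    · rw [Set.encard_coe_eq_coe_finsetCard, Finset.card_range]

theorem unionBook_exists {V : Type*} [Finite V] (G : SimpleGraph V) : ∃ k, UnionBook G k := by
  classical
  haveI := Fintype.ofFinite V
  obtain ⟨o⟩ : Nonempty (LinearOrder V) :=
    ⟨LinearOrder.lift' (Fintype.equivFin V) (Fintype.equivFin V).injective⟩
  let en := (Fintype.equivFin (Sym2 V))
  refine ⟨Fintype.card (Sym2 V), o, fun e => (en e : ℕ), ?_, ?_⟩
  · intro e _
    exact (en e).2
  · intro u v x y _ _ h _ hc
    have h' : s(u, v) = s(x, y) := en.injective (Fin.ext h)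
    letI := o
    obtain ⟨h1, h2, h3⟩ := hc
    have h1' : u < x := h1
    have h2' : x < v := h2
    have h3' : v < y := h3
    rcases Sym2.eq_iff.1 h' with ⟨rfl, rfl⟩ | ⟨rfl, rfl⟩
    · exact lt_irrefl _ h1'
    · exact lt_irrefl _ (h1'.trans (h2'.trans h3'))

/-- A union embedding gives a local book embedding: split every page into its components. -/
theorem LocalBook.of_unionBook {V : Type*} [Finite V] {G : SimpleGraph V} {k : ℕ}
    (h : UnionBook G k) : LocalBook G k := by
  classical
  haveI := Fintype.ofFinite V
  obtain ⟨o, page, hk, hc⟩ := h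
  -- representative of the component of `v` in page `p`
  let comp : ℕ → V → V := fun p v =>
    Quot.out ((pageGraph G page p).connectedComponentMk v)
  have hcomp : ∀ p v, (pageGraph G page p).Reachable (comp p v) v := fun p v =>
    SimpleGraph.ConnectedComponent.exact (Quot.out_eq _)
  have hcomp' : ∀ p u v, (pageGraph G page p).Reachable u v → comp p u = comp p v := by
    intro p u v h
    change Quot.out _ = Quot.out _
    rw [SimpleGraph.ConnectedComponent.sound h]
  let en := Fintype.equivFin V
  let N := Fintype.card V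
  -- new page of the edge `e`
  let pg : Sym2 V → ℕ := fun e => page e * N + en (comp (page e) (Quot.out e).1)
  have hout : ∀ u v : V, G.Adj u v →
      (pageGraph G page (page s(u, v))).Reachable (Quot.out s(u, v)).1 u := by
    intro u v huv
    have h1 : s((Quot.out s(u, v)).1, (Quot.out s(u, v)).2) = s(u, v) := Quot.out_eq s(u, v)
    rcases Sym2.eq_iff.1 h1 with ⟨h2, _⟩ | ⟨h2, _⟩
    · rw [h2]
    · rw [h2]
      refine SimpleGraph.Adj.reachable ⟨huv.symm, ?_⟩
      rw [Sym2.eq_swap]
  have hpg : ∀ u v, G.Adj u v → pg s(u, v) = page s(u, v) * N + en (comp (page s(u, v)) u) := by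
    intro u v huv
    change page s(u, v) * N + en (comp (page s(u, v)) (Quot.out s(u, v)).1) = _
    rw [hcomp' _ _ _ (hout u v huv)]
  have hdec : ∀ a b : ℕ, ∀ x y : Fin N, a * N + x = b * N + y → a = b ∧ x = y := by
    intro a b x y hxy
    have hN : 0 < N := lt_of_le_of_lt (Nat.zero_le _) x.2
    have h1 : (a * N + x) / N = (b * N + y) / N := by rw [hxy]
    have h2 : (a * N + x) / N = a := by
      rw [mul_comm, Nat.mul_add_div hN, Nat.div_eq_of_lt x.2, add_zero]
    have h3 : (b * N + y) / N = b := by
      rw [mul_comm, Nat.mul_add_div hN, Nat.div_eq_of_lt y.2, add_zero]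
    rw [h2, h3] at h1
    subst h1
    exact ⟨rfl, Fin.ext (by omega)⟩
  refine ⟨o, pg, ?_, ?_⟩
  · intro u v x y huv hxy hpe
    rw [hpg u v huv, hpg x y hxy] at hpe
    obtain ⟨h1, h2⟩ := hdec _ _ _ _ hpe
    refine hc u v x y huv hxy h1 ?_
    have h3 : comp (page s(u, v)) u = comp (page s(x, y)) x := en.injective h2
    have h4 := hcomp (page s(u, v)) u
    have h5 := hcomp (page s(x, y)) x
    rw [← h3, ← h1] at h5
    exact h4.symm.trans h5
  · intro v
    have : {p | ∃ w, G.Adj v w ∧ pg s(v, w) = p} ⊆
        (fun i => i * N + (en (comp i v) : ℕ)) '' ((Finset.range k : Finset ℕ) : Set ℕ) := by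
      rintro p ⟨w, hw, rfl⟩
      refine ⟨page s(v, w), ?_, (hpg v w hw).symm⟩
      simpa using hk _ hw
    refine (Set.encard_le_encard this).trans ((Set.encard_image_le _ _).trans ?_)
    rw [Set.encard_coe_eq_coe_finsetCard, Finset.card_range]

end Pool.Agent.PageNum
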