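import Mathlib
import Pool.Agent.PageNum.Defs

/-!
# Upper bound machinery: pages that are rotated triangulated hexagons
-/

namespace Pool.Agent.PageNum

open Finset

/-- Position of `z` relative to `t` on the circle of length `n`. -/
def rot (n t z : ℕ) : ℕ := if t ≤ z then z - t else z + n - t

/-- Edges of the triangulated hexagon with vertices `0, x, a, c, e, g`:
the six sides and the chords `0a`, `cg`, `0c`. -/
def Hex (x a c e g p q : ℕ) : Prop :=
  (p = 0 ∧ q = x) ∨ (p = x ∧ q = a) ∨ (p = a ∧ q = c) ∨ (p = c ∧ q = e) ∨ (p = e ∧ q = g) ∨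
  (p = 0 ∧ q = g) ∨ (p = 0 ∧ q = a) ∨ (p = c ∧ q = g) ∨ (p = 0 ∧ q = c)

theorem hex_noncross {x a c e g : ℕ} (h1 : x ≤ a) (h2 : a ≤ c) (h3 : c ≤ e) (h4 : e ≤ g)
    {p q r s : ℕ} (h : Hex x a c e g p q) (h' : Hex x a c e g r s) (c1 : p < r) (c2 : r < q)
    (c3 : q < s) : False := by
  unfold Hex at h h'
  rcases h with h | h | h | h | h | h | h | h | h <;>
  rcases h' with h' | h' | h' | h' | h' | h' | h' | h' | h' <;> omega

/-- General rotation lemma: if the two crossing chords `uv`, `xy` both lie in the same rotated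
hexagon we get a contradiction. -/
theorem rot_noncross {n t x a c e g : ℕ} (h1 : x ≤ a) (h2 : a ≤ c) (h3 : c ≤ e) (h4 : e ≤ g)
    {u v w z : ℕ} (c1 : u < w) (c2 : w < v) (c3 : v < z) (hz : z < n) (ht : t < n)
    (h : Hex x a c e g (rot n t u) (rot n t v) ∨ Hex x a c e g (rot n t v) (rot n t u))
    (h' : Hex x a c e g (rot n t w) (rot n t z) ∨ Hex x a c e g (rot n t z) (rot n t w))
    (o : ∀ p q, Hex x a c e g p q → p ≤ q) : False := by
  rcases Nat.lt_or_ge u t with hu | hu
  · rcases Nat.lt_or_ge w t with hw | hw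
    · rcases Nat.lt_or_ge v t with hv | hv
      · rcases Nat.lt_or_ge z t with hz' | hz'
        · have e1 : rot n t u = u + n - t := if_neg (by omega)
          have e2 : rot n t w = w + n - t := if_neg (by omega)
          have e3 : rot n t v = v + n - t := if_neg (by omega)
          have e4 : rot n t z = z + n - t := if_neg (by omega)
          rw [e1, e3] at h
          rw [e2, e4] at h'
          rcases h with h | h
          · rcases h' with h' | h'
            · exact hex_noncross h1 h2 h3 h4 h h' (by omega) (by omega) (by omega)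
            · have := o _ _ h'; omega
          · have := o _ _ h; omega
        · have e1 : rot n t u = u + n - t := if_neg (by omega)
          have e2 : rot n t w = w + n - t := if_neg (by omega)
          have e3 : rot n t v = v + n - t := if_neg (by omega)
          have e4 : rot n t z = z - t := if_pos (by omega)
          rw [e1, e3] at h
          rw [e2, e4] at h'
          rcases h with h | h
          · rcases h' with h' | h'
            · have := o _ _ h'; omega
            · exact hex_noncross h1 h2 h3 h4 h' h (by omega) (by omega) (by omega)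
          · have := o _ _ h; omega
      · have e1 : rot n t u = u + n - t := if_neg (by omega)
        have e2 : rot n t w = w + n - t := if_neg (by omega)
        have e3 : rot n t v = v - t := if_pos (by omega)
        have e4 : rot n t z = z - t := if_pos (by omega)
        rw [e1, e3] at h
        rw [e2, e4] at h'
        rcases h with h | h
        · have := o _ _ h; omega
        · rcases h' with h' | h'
          · have := o _ _ h'; omega
          · exact hex_noncross h1 h2 h3 h4 h h' (by omega) (by omega) (by omega)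
    · have e1 : rot n t u = u + n - t := if_neg (by omega)
      have e2 : rot n t w = w - t := if_pos (by omega)
      have e3 : rot n t v = v - t := if_pos (by omega)
      have e4 : rot n t z = z - t := if_pos (by omega)
      rw [e1, e3] at h
      rw [e2, e4] at h'
      rcases h with h | h
      · have := o _ _ h; omega
      · rcases h' with h' | h'
        · exact hex_noncross h1 h2 h3 h4 h' h (by omega) (by omega) (by omega)
        · have := o _ _ h'; omega
  · have e1 : rot n t u = u - t := if_pos (by omega)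
    have e2 : rot n t w = w - t := if_pos (by omega)
    have e3 : rot n t v = v - t := if_pos (by omega)
    have e4 : rot n t z = z - t := if_pos (by omega)
    rw [e1, e3] at h
    rw [e2, e4] at h'
    rcases h with h | h
    · rcases h' with h' | h'
      · exact hex_noncross h1 h2 h3 h4 h h' (by omega) (by omega) (by omega)
      · have := o _ _ h'; omega
    · have := o _ _ h; omega

/-- The vertex set of the hexagon. -/
def hexV (x a c e g : ℕ) : Finset ℕ := {0, x, a, c, e, g}

theorem hexV_card (x a c e g : ℕ) : (hexV x a c e g).card ≤ 6 := card_le_six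

theorem Hex.left_mem {x a c e g p q : ℕ} (h : Hex x a c e g p q) : p ∈ hexV x a c e g := by
  unfold Hex at h
  simp only [hexV, mem_insert, mem_singleton]
  rcases h with h | h | h | h | h | h | h | h | h <;> rw [h.1] <;> simp

theorem Hex.right_mem {x a c e g p q : ℕ} (h : Hex x a c e g p q) : q ∈ hexV x a c e g := by
  unfold Hex at h
  simp only [hexV, mem_insert, mem_singleton]
  rcases h with h | h | h | h | h | h | h | h | h <;> rw [h.2] <;> simp

theorem Hex.le {x a c e g p q : ℕ} (h1 : x ≤ a) (h2 : a ≤ c) (h3 : c ≤ e) (h4 : e ≤ g)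
    (h : Hex x a c e g p q) : p ≤ q := by
  unfold Hex at h
  rcases h with h | h | h | h | h | h | h | h | h <;> omega

/-- A family of page types `i < N`, each a hexagon together with a range `τ i` of translations. -/
structure Fam (n N : ℕ) where
  /-- vertices -/
  x : ℕ → ℕ
  /-- vertices -/
  a : ℕ → ℕ
  /-- vertices -/
  c : ℕ → ℕ
  /-- vertices -/
  e : ℕ → ℕ
  /-- vertices -/
  g : ℕ → ℕ
  /-- translations used -/
  τ : ℕ → ℕ
  hx : ∀ i < N, x i ≤ a i
  ha : ∀ i < N, a i ≤ c i
  hc : ∀ i < N, c i ≤ e i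
  he : ∀ i < N, e i ≤ g i
  hg : ∀ i < N, g i < n
  hτ : ∀ i < N, τ i ≤ n

/-- `(i, t)` is a page containing the edge `ab`. -/
def Fam.Covers {n N : ℕ} (F : Fam n N) (i t a b : ℕ) : Prop :=
  i < N ∧ t < F.τ i ∧
    (Hex (F.x i) (F.a i) (F.c i) (F.e i) (F.g i) (rot n t a) (rot n t b) ∨
     Hex (F.x i) (F.a i) (F.c i) (F.e i) (F.g i) (rot n t b) (rot n t a))

theorem Fam.Covers.symm {n N : ℕ} {F : Fam n N} {i t a b : ℕ} (h : F.Covers i t a b) :
    F.Covers i t b a := ⟨h.1, h.2.1, h.2.2.symm⟩

/-- If every edge is covered and the vertex `v` is in at most `m i` pages of type `i`, the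
complete graph has a `k`-local book embedding. -/
theorem Fam.localBook {n N k : ℕ} (F : Fam n N) (m : ℕ → ℕ) (hm : ∑ i ∈ range N, m i ≤ k)
    (hcov : ∀ a b, a < b → b < n → ∃ p : ℕ × ℕ, F.Covers p.1 p.2 a b)
    (hloc : ∀ i < N, ∀ v < n, ∃ S : Finset ℕ, S.card ≤ m i ∧ ∀ t < F.τ i,
      rot n t v ∈ hexV (F.x i) (F.a i) (F.c i) (F.e i) (F.g i) → t ∈ S) :
    LocalBook (⊤ : SimpleGraph (Fin n)) k := by
  classical
  choose! f hf using hcov
  choose! S hS1 hS2 using hloc
  let pg : Fin n → Fin n → ℕ := fun u v =>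
    Nat.pair (f (min u v : Fin n) (max u v : Fin n)).1 (f (min u v : Fin n) (max u v : Fin n)).2
  have hpg : ∀ u v, pg u v = pg v u := by
    intro u v
    simp only [pg]
    rw [min_comm, max_comm]
  have hcov' : ∀ u v : Fin n, u ≠ v → ∃ i t, pg u v = Nat.pair i t ∧ F.Covers i t u v := by
    intro u v huv
    rcases lt_or_gt_of_ne huv with h | h
    · refine ⟨_, _, rfl, ?_⟩
      have h1 : min u v = u := min_eq_left h.le
      have h2 : max u v = v := max_eq_right h.le
      rw [h1, h2]
      exact hf u v h v.2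
    · refine ⟨_, _, rfl, ?_⟩
      have h1 : min u v = v := min_eq_right h.le
      have h2 : max u v = u := max_eq_left h.le
      rw [h1, h2]
      exact (hf v u h u.2).symm
  refine ⟨inferInstance, Sym2.lift ⟨pg, hpg⟩, ?_, ?_⟩
  · intro u v w z huv hwz hp hc
    obtain ⟨c1, c2, c3⟩ := hc
    have c1' : (u : ℕ) < w := c1
    have c2' : (w : ℕ) < v := c2
    have c3' : (v : ℕ) < z := c3
    rw [Sym2.lift_mk, Sym2.lift_mk] at hp
    change pg u v = pg w z at hp
    obtain ⟨i, t, e1, d1⟩ := hcov' u v (by rw [SimpleGraph.top_adj] at huv; exact huv)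
    obtain ⟨i', t', e2, d2⟩ := hcov' w z (by rw [SimpleGraph.top_adj] at hwz; exact hwz)
    rw [e1, e2, Nat.pair_eq_pair] at hp
    obtain ⟨rfl, rfl⟩ := hp
    obtain ⟨hi, ht, q1⟩ := d1
    obtain ⟨_, _, q2⟩ := d2
    exact rot_noncross (F.hx i hi) (F.ha i hi) (F.hc i hi) (F.he i hi) c1' c2' c3' z.2
      (lt_of_lt_of_le ht (F.hτ i hi)) q1 q2
      (fun p q hpq => Hex.le (F.hx i hi) (F.ha i hi) (F.hc i hi) (F.he i hi) hpq)
  · intro v
    have hsub : {p | ∃ w, (⊤ : SimpleGraph (Fin n)).Adj v w ∧
        Sym2.lift ⟨pg, hpg⟩ s(v, w) = p} ⊆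
        (((range N).biUnion fun i => (S i v).image (Nat.pair i) : Finset ℕ) : Set ℕ) := by
      rintro p ⟨w, hvw, rfl⟩
      rw [Sym2.lift_mk]
      change pg v w ∈ _
      obtain ⟨i, t, e1, hi, ht, q⟩ := hcov' v w (by rw [SimpleGraph.top_adj] at hvw; exact hvw)
      rw [e1, mem_coe, mem_biUnion]
      refine ⟨i, mem_range.2 hi, mem_image_of_mem _ (hS2 i hi v v.2 t ht ?_)⟩
      rcases q with q | q
      · exact q.left_mem
      · exact q.right_mem
    refine (Set.encard_le_encard hsub).trans ?_
    rw [Set.encard_coe_eq_coe_finsetCard]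
    have : ((range N).biUnion fun i => (S i v).image (Nat.pair i)).card ≤ k := by
      refine card_biUnion_le.trans (le_trans (sum_le_sum fun i hi => ?_) hm)
      exact card_image_le.trans (hS1 i (mem_range.1 hi) v v.2)
    exact_mod_cast this

theorem rot_lt {n t z : ℕ} (ht : t < n) (hz : z < n) : rot n t z < n := by
  unfold rot; split_ifs <;> omega

theorem rot_rot {n t z p : ℕ} (ht : t < n) (hz : z < n) (h : rot n t z = p) : rot n p z = t := by
  unfold rot at h ⊢; split_ifs at h <;> split_ifs <;> omega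

/-- A vertex is in at most six translates of a full-orbit page. -/
theorem full_loc {n x a c e g v : ℕ} (hv : v < n) : ∃ S : Finset ℕ, S.card ≤ 6 ∧ ∀ t < n,
    rot n t v ∈ hexV x a c e g → t ∈ S := by
  refine ⟨(hexV x a c e g).image (fun p => rot n p v), card_image_le.trans (hexV_card _ _ _ _ _), ?_⟩
  intro t ht h
  rw [mem_image]
  exact ⟨_, h, rot_rot ht hv rfl⟩

/-- The pair `(p, d)` (start, length) is an edge of the hexagon. -/
def Good (n x a c e g p d : ℕ) : Prop :=
  p < n ∧ p + d ≤ n ∧ (p + d < n → Hex x a c e g p (p + d)) ∧ (p + d = n → Hex x a c e g 0 p)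

/-- Covering of the edge `{u, u + d mod n}` by a page of a full orbit. -/
theorem Fam.covers_full {n N : ℕ} (F : Fam n N) {i p d u o : ℕ} (hi : i < N) (hτ : F.τ i = n)
    (hG : Good n (F.x i) (F.a i) (F.c i) (F.e i) (F.g i) p d) (hu : u < n)
    (ho : (o = u + d ∧ u + d < n) ∨ (o + n = u + d ∧ n ≤ u + d)) :
    F.Covers i (rot n p u) u o := by
  obtain ⟨h1, h2, h3, h4⟩ := hG
  have hr : rot n (rot n p u) u = p := rot_rot h1 hu rfl
  refine ⟨hi, by rw [hτ]; exact rot_lt h1 hu, ?_⟩
  rw [hr]
  rcases Nat.lt_or_ge (p + d) n with h5 | h5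
  · left
    have : rot n (rot n p u) o = p + d := by
      unfold rot; split_ifs <;> omega
    rw [this]
    exact h3 h5
  · right
    have : rot n (rot n p u) o = 0 := by
      unfold rot; split_ifs <;> omega
    rw [this]
    exact h4 (by omega)

/-- Reduction of coverage to circular lengths. -/
theorem cover_of_len {n N : ℕ} (F : Fam n N)
    (h : ∀ d u o, 1 ≤ d → 2 * d ≤ n → u < n → o < n →
      ((o = u + d ∧ u + d < n) ∨ (o + n = u + d ∧ n ≤ u + d)) → ∃ i t, F.Covers i t u o) :
    ∀ a b, a < b → b < n → ∃ p : ℕ × ℕ, F.Covers p.1 p.2 a b := by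
  intro a b hab hb
  rcases Nat.lt_or_ge n (2 * (b - a)) with h1 | h1
  · obtain ⟨i, t, h2⟩ := h (n - (b - a)) b a (by omega) (by omega) hb (by omega)
      (Or.inr ⟨by omega, by omega⟩)
    exact ⟨(i, t), h2.symm⟩
  · obtain ⟨i, t, h2⟩ := h (b - a) a b (by omega) (by omega) (by omega) hb
      (Or.inl ⟨by omega, by omega⟩)
    exact ⟨(i, t), h2⟩

/-- Monotonicity of local book embeddings. -/
theorem LocalBook.mono {m n k l : ℕ} (hmn : m ≤ n) (hkl : k ≤ l)
    (h : LocalBook (⊤ : SimpleGraph (Fin n)) k) : LocalBook (⊤ : SimpleGraph (Fin m)) l := by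
  obtain ⟨o, page, h1, h2⟩ := h
  let φ : Fin m → Fin n := Fin.castLE hmn
  have hφ : Function.Injective φ := Fin.castLE_injective hmn
  refine ⟨@LinearOrder.lift' _ _ o φ hφ, fun e => page (e.map φ), ?_, ?_⟩
  · intro u v x y huv hxy hp hc
    simp only [Sym2.map_mk] at hp
    refine h1 (φ u) (φ v) (φ x) (φ y) ?_ ?_ hp ?_
    · rw [SimpleGraph.top_adj] at huv ⊢
      exact fun h => huv (hφ h)
    · rw [SimpleGraph.top_adj] at hxy ⊢
      exact fun h => hxy (hφ h)
    · exact hc
  · intro v
    refine (Set.encard_le_encard ?_).trans ((h2 (φ v)).trans (by exact_mod_cast hkl))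
    rintro p ⟨w, hvw, rfl⟩
    refine ⟨φ w, ?_, ?_⟩
    · rw [SimpleGraph.top_adj] at hvw ⊢
      exact fun h => hvw (hφ h)
    · simp only [Sym2.map_mk]

end Pool.Agent.PageNum
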