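import Mathlib
import Pool.Agent.PageNum.Upper

/-!
# Cyclic families: `K_{3k}` is `k`-local for `k ≢ 0 (mod 3)`
-/

namespace Pool.Agent.PageNum

open Finset

theorem hex_a (x a c e g : ℕ) : Hex x a c e g 0 a :=
  Or.inr (Or.inr (Or.inr (Or.inr (Or.inr (Or.inr (Or.inl ⟨rfl, rfl⟩))))))

theorem hex_ac (x a c e g : ℕ) : Hex x a c e g a c :=
  Or.inr (Or.inr (Or.inl ⟨rfl, rfl⟩))

theorem hex_c (x a c e g : ℕ) : Hex x a c e g 0 c :=
  Or.inr (Or.inr (Or.inr (Or.inr (Or.inr (Or.inr (Or.inr (Or.inr ⟨rfl, rfl⟩)))))))

theorem g1 {n x a c e g p d : ℕ} (h : x < n) (h1 : p = 0) (h2 : d = x) (_ : 0 < d) :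
    Good n x a c e g p d := by
  subst h1
  exact ⟨by omega, by omega, fun _ => Or.inl ⟨rfl, by omega⟩, fun h => by omega⟩

theorem g2 {n x a c e g p d : ℕ} (h : a < n) (h1 : p = x) (h2 : x + d = a) (_ : 0 < d) :
    Good n x a c e g p d :=
  ⟨by omega, by omega, fun _ => Or.inr (Or.inl ⟨by omega, by omega⟩), fun h => by omega⟩

theorem g3 {n x a c e g p d : ℕ} (h : c < n) (h1 : p = a) (h2 : a + d = c) (_ : 0 < d) :
    Good n x a c e g p d :=
  ⟨by omega, by omega, fun _ => Or.inr (Or.inr (Or.inl ⟨by omega, by omega⟩)),
    fun h => by omega⟩

theorem g4 {n x a c e g p d : ℕ} (h : e < n) (h1 : p = c) (h2 : c + d = e) (_ : 0 < d) :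
    Good n x a c e g p d :=
  ⟨by omega, by omega, fun _ => Or.inr (Or.inr (Or.inr (Or.inl ⟨by omega, by omega⟩))),
    fun h => by omega⟩

theorem g5 {n x a c e g p d : ℕ} (h : g < n) (h1 : p = e) (h2 : e + d = g) (_ : 0 < d) :
    Good n x a c e g p d :=
  ⟨by omega, by omega,
    fun _ => Or.inr (Or.inr (Or.inr (Or.inr (Or.inl ⟨by omega, by omega⟩)))),
    fun h => by omega⟩

theorem g6 {n x a c e g p d : ℕ} (h1 : p = g) (h2 : g + d = n) (_ : 0 < d) :
    Good n x a c e g p d :=
  ⟨by omega, by omega, fun h => by omega,
    fun _ => Or.inr (Or.inr (Or.inr (Or.inr (Or.inr (Or.inl ⟨rfl, h1⟩)))))⟩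

theorem g7 {n x a c e g p d : ℕ} (h : a < n) (h1 : p = 0) (h2 : d = a) (_ : 0 < d) :
    Good n x a c e g p d := by
  subst h1; subst h2
  exact ⟨by omega, by omega, fun _ => by rw [Nat.zero_add]; exact hex_a _ _ _ _ _,
    fun h => by omega⟩

theorem g8 {n x a c e g p d : ℕ} (h : g < n) (h1 : p = c) (h2 : c + d = g) (_ : 0 < d) :
    Good n x a c e g p d :=
  ⟨by omega, by omega,
    fun _ => Or.inr (Or.inr (Or.inr (Or.inr (Or.inr (Or.inr (Or.inr (Or.inl
      ⟨by omega, by omega⟩))))))),
    fun h => by omega⟩

theorem g9 {n x a c e g p d : ℕ} (h1 : p = c) (h2 : c + d = n) (_ : 0 < d) :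
    Good n x a c e g p d := by
  subst h1
  exact ⟨by omega, by omega, fun h => by omega, fun _ => hex_c _ _ _ _ _⟩

theorem g10 {n x a c e g p d : ℕ} (h : c < n) (h1 : p = 0) (h2 : d = c) (_ : 0 < d) :
    Good n x a c e g p d := by
  subst h1; subst h2
  exact ⟨by omega, by omega, fun _ => by rw [Nat.zero_add]; exact hex_c _ _ _ _ _,
    fun h => by omega⟩

/-- `n = 18 s + 3`, `k = 6 s + 1`. -/
def fam1 (s : ℕ) : Fam (18 * s + 3) (s + 1) where
  x i := if i < s then 2 * s - 2 * i else 0
  a i := if i < s then 7 * s - i + 1 else 6 * s + 1
  c i := if i < s then 9 * s + i + 2 else 12 * s + 2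
  e i := if i < s then 11 * s + 3 * i + 4 else 12 * s + 2
  g i := if i < s then 16 * s + 2 * i + 4 else 12 * s + 2
  τ i := if i < s then 18 * s + 3 else 6 * s + 1
  hx i hi := by split_ifs <;> omega
  ha i hi := by split_ifs <;> omega
  hc i hi := by split_ifs <;> omega
  he i hi := by split_ifs <;> omega
  hg i hi := by split_ifs <;> omega
  hτ i hi := by split_ifs <;> omega

theorem fam1_full {s i : ℕ} (hi : i < s) {p d u o : ℕ} (hu : u < 18 * s + 3)
    (hG : Good (18 * s + 3) (2 * s - 2 * i) (7 * s - i + 1) (9 * s + i + 2)
      (11 * s + 3 * i + 4) (16 * s + 2 * i + 4) p d)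
    (ho : (o = u + d ∧ u + d < 18 * s + 3) ∨ (o + (18 * s + 3) = u + d ∧ 18 * s + 3 ≤ u + d)) :
    ∃ i t, (fam1 s).Covers i t u o := by
  refine ⟨i, _, (fam1 s).covers_full (i := i) (p := p) (by omega) ?_ ?_ hu ho⟩
  · simp only [fam1, if_pos hi]
  · simp only [fam1, if_pos hi]; exact hG

theorem localBook1 (s : ℕ) : LocalBook (⊤ : SimpleGraph (Fin (18 * s + 3))) (6 * s + 1) := by
  refine (fam1 s).localBook (fun i => if i < s then 6 else 1) ?_ ?_ ?_
  · rw [sum_range_succ, if_neg (lt_irrefl s), sum_congr rfl
      (fun i hi => if_pos (mem_range.1 hi))]
    simp [mul_comm]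
  · refine cover_of_len _ ?_
    intro d u o h1 h2 hu ho' ho
    by_cases c1 : d ≤ 2 * s
    · by_cases c2 : d % 2 = 0
      · exact fam1_full (i := (2 * s - d) / 2) (p := 0) (by omega) hu (by first | exact g1 (by omega) (by omega) (by omega) (by omega) | exact g2 (by omega) (by omega) (by omega) (by omega) | exact g3 (by omega) (by omega) (by omega) (by omega) | exact g4 (by omega) (by omega) (by omega) (by omega) | exact g5 (by omega) (by omega) (by omega) (by omega) | exact g6 (by omega) (by omega) (by omega) | exact g7 (by omega) (by omega) (by omega) (by omega) | exact g8 (by omega) (by omega) (by omega) (by omega) | exact g9 (by omega) (by omega) (by omega) | exact g10 (by omega) (by omega) (by omega) (by omega)) ho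
      · exact fam1_full (i := (2 * s - 1 - d) / 2) (p := 16 * s + 2 * ((2 * s - 1 - d) / 2) + 4)
          (by omega) hu (by first | exact g1 (by omega) (by omega) (by omega) (by omega) | exact g2 (by omega) (by omega) (by omega) (by omega) | exact g3 (by omega) (by omega) (by omega) (by omega) | exact g4 (by omega) (by omega) (by omega) (by omega) | exact g5 (by omega) (by omega) (by omega) (by omega) | exact g6 (by omega) (by omega) (by omega) | exact g7 (by omega) (by omega) (by omega) (by omega) | exact g8 (by omega) (by omega) (by omega) (by omega) | exact g9 (by omega) (by omega) (by omega) | exact g10 (by omega) (by omega) (by omega) (by omega)) ho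
    by_cases c3 : d ≤ 4 * s
    · by_cases c2 : d % 2 = 0
      · exact fam1_full (i := (d - 2 * s - 2) / 2) (p := 9 * s + (d - 2 * s - 2) / 2 + 2)
          (by omega) hu (by first | exact g1 (by omega) (by omega) (by omega) (by omega) | exact g2 (by omega) (by omega) (by omega) (by omega) | exact g3 (by omega) (by omega) (by omega) (by omega) | exact g4 (by omega) (by omega) (by omega) (by omega) | exact g5 (by omega) (by omega) (by omega) (by omega) | exact g6 (by omega) (by omega) (by omega) | exact g7 (by omega) (by omega) (by omega) (by omega) | exact g8 (by omega) (by omega) (by omega) (by omega) | exact g9 (by omega) (by omega) (by omega) | exact g10 (by omega) (by omega) (by omega) (by omega)) ho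
      · exact fam1_full (i := (d - 2 * s - 1) / 2) (p := 7 * s - (d - 2 * s - 1) / 2 + 1)
          (by omega) hu (by first | exact g1 (by omega) (by omega) (by omega) (by omega) | exact g2 (by omega) (by omega) (by omega) (by omega) | exact g3 (by omega) (by omega) (by omega) (by omega) | exact g4 (by omega) (by omega) (by omega) (by omega) | exact g5 (by omega) (by omega) (by omega) (by omega) | exact g6 (by omega) (by omega) (by omega) | exact g7 (by omega) (by omega) (by omega) (by omega) | exact g8 (by omega) (by omega) (by omega) (by omega) | exact g9 (by omega) (by omega) (by omega) | exact g10 (by omega) (by omega) (by omega) (by omega)) ho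
    by_cases c4 : d ≤ 5 * s
    · exact fam1_full (i := 5 * s - d) (p := 11 * s + 3 * (5 * s - d) + 4)
        (by omega) hu (by first | exact g1 (by omega) (by omega) (by omega) (by omega) | exact g2 (by omega) (by omega) (by omega) (by omega) | exact g3 (by omega) (by omega) (by omega) (by omega) | exact g4 (by omega) (by omega) (by omega) (by omega) | exact g5 (by omega) (by omega) (by omega) (by omega) | exact g6 (by omega) (by omega) (by omega) | exact g7 (by omega) (by omega) (by omega) (by omega) | exact g8 (by omega) (by omega) (by omega) (by omega) | exact g9 (by omega) (by omega) (by omega) | exact g10 (by omega) (by omega) (by omega) (by omega)) ho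
    by_cases c5 : d ≤ 6 * s
    · exact fam1_full (i := d - 5 * s - 1) (p := 2 * s - 2 * (d - 5 * s - 1))
        (by omega) hu (by first | exact g1 (by omega) (by omega) (by omega) (by omega) | exact g2 (by omega) (by omega) (by omega) (by omega) | exact g3 (by omega) (by omega) (by omega) (by omega) | exact g4 (by omega) (by omega) (by omega) (by omega) | exact g5 (by omega) (by omega) (by omega) (by omega) | exact g6 (by omega) (by omega) (by omega) | exact g7 (by omega) (by omega) (by omega) (by omega) | exact g8 (by omega) (by omega) (by omega) (by omega) | exact g9 (by omega) (by omega) (by omega) | exact g10 (by omega) (by omega) (by omega) (by omega)) ho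
    by_cases c6 : d = 6 * s + 1
    · -- triangle
      subst c6
      refine ⟨s, if u < 6 * s + 1 then u else if u < 12 * s + 2 then u - (6 * s + 1)
        else u - (12 * s + 2), by omega, ?_, ?_⟩
      · simp only [fam1, if_neg (lt_irrefl s)]
        split_ifs <;> omega
      · simp only [fam1, if_neg (lt_irrefl s)]
        rcases Nat.lt_or_ge u (6 * s + 1) with hu1 | hu1
        · rw [if_pos hu1]
          left
          have e1 : rot (18 * s + 3) u u = 0 := by unfold rot; split_ifs <;> omega
          have e2 : rot (18 * s + 3) u o = 6 * s + 1 := by unfold rot; split_ifs <;> omega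
          rw [e1, e2]; exact hex_a _ _ _ _ _
        · rw [if_neg (by omega)]
          rcases Nat.lt_or_ge u (12 * s + 2) with hu2 | hu2
          · rw [if_pos hu2]
            left
            have e1 : rot (18 * s + 3) (u - (6 * s + 1)) u = 6 * s + 1 := by
              unfold rot; split_ifs <;> omega
            have e2 : rot (18 * s + 3) (u - (6 * s + 1)) o = 12 * s + 2 := by
              unfold rot; split_ifs <;> omega
            rw [e1, e2]; exact hex_ac _ _ _ _ _
          · rw [if_neg (by omega)]
            right
            have e1 : rot (18 * s + 3) (u - (12 * s + 2)) u = 12 * s + 2 := by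
              unfold rot; split_ifs <;> omega
            have e2 : rot (18 * s + 3) (u - (12 * s + 2)) o = 0 := by
              unfold rot; split_ifs <;> omega
            rw [e1, e2]; exact hex_c _ _ _ _ _
    by_cases c7 : d ≤ 7 * s + 1
    · exact fam1_full (i := 7 * s + 1 - d) (p := 0) (by omega) hu (by first | exact g1 (by omega) (by omega) (by omega) (by omega) | exact g2 (by omega) (by omega) (by omega) (by omega) | exact g3 (by omega) (by omega) (by omega) (by omega) | exact g4 (by omega) (by omega) (by omega) (by omega) | exact g5 (by omega) (by omega) (by omega) (by omega) | exact g6 (by omega) (by omega) (by omega) | exact g7 (by omega) (by omega) (by omega) (by omega) | exact g8 (by omega) (by omega) (by omega) (by omega) | exact g9 (by omega) (by omega) (by omega) | exact g10 (by omega) (by omega) (by omega) (by omega)) ho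
    by_cases c8 : d ≤ 8 * s + 1
    · exact fam1_full (i := d - 7 * s - 2) (p := 9 * s + (d - 7 * s - 2) + 2)
        (by omega) hu (by first | exact g1 (by omega) (by omega) (by omega) (by omega) | exact g2 (by omega) (by omega) (by omega) (by omega) | exact g3 (by omega) (by omega) (by omega) (by omega) | exact g4 (by omega) (by omega) (by omega) (by omega) | exact g5 (by omega) (by omega) (by omega) (by omega) | exact g6 (by omega) (by omega) (by omega) | exact g7 (by omega) (by omega) (by omega) (by omega) | exact g8 (by omega) (by omega) (by omega) (by omega) | exact g9 (by omega) (by omega) (by omega) | exact g10 (by omega) (by omega) (by omega) (by omega)) ho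
    · exact fam1_full (i := 9 * s + 1 - d) (p := 9 * s + (9 * s + 1 - d) + 2)
        (by omega) hu (by first | exact g1 (by omega) (by omega) (by omega) (by omega) | exact g2 (by omega) (by omega) (by omega) (by omega) | exact g3 (by omega) (by omega) (by omega) (by omega) | exact g4 (by omega) (by omega) (by omega) (by omega) | exact g5 (by omega) (by omega) (by omega) (by omega) | exact g6 (by omega) (by omega) (by omega) | exact g7 (by omega) (by omega) (by omega) (by omega) | exact g8 (by omega) (by omega) (by omega) (by omega) | exact g9 (by omega) (by omega) (by omega) | exact g10 (by omega) (by omega) (by omega) (by omega)) ho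
  · intro i hi v hv
    by_cases h : i < s
    · simp only [fam1, if_pos h]
      exact full_loc hv
    · simp only [fam1, if_neg h]
      refine ⟨{if v < 6 * s + 1 then v else if v < 12 * s + 2 then v - (6 * s + 1)
        else v - (12 * s + 2)}, by simp, ?_⟩
      intro t ht hmem
      simp only [hexV, mem_insert, mem_singleton] at hmem ⊢
      unfold rot at hmem
      split_ifs at hmem <;> split_ifs <;> omega


/-- Splitting the sum of the multiplicities. -/
theorem sum_two {s A B : ℕ} : ∑ i ∈ range (s + 2), (if i < s then 6 else if i = s then A else B)
    = 6 * s + A + B := by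
  have h1 : ∑ i ∈ range s, (if i < s then 6 else if i = s then A else B) = 6 * s := by
    rw [sum_congr rfl (fun i hi => if_pos (mem_range.1 hi))]
    simp [mul_comm]
  have h2 : ¬ (s + 1 < s) := by omega
  have h3 : ¬ (s + 1 = s) := by omega
  rw [sum_range_succ, sum_range_succ, h1, if_neg (lt_irrefl s), if_pos rfl, if_neg h2, if_neg h3]

theorem sum_one {s A : ℕ} : ∑ i ∈ range (s + 1), (if i < s then 6 else A) = 6 * s + A := by
  rw [sum_range_succ, if_neg (lt_irrefl s), sum_congr rfl
    (fun i hi => if_pos (mem_range.1 hi))]
  simp [mul_comm]

/-- `n = 18 s + 12`, `k = 6 s + 4`. -/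
def fam4 (s : ℕ) : Fam (18 * s + 12) (s + 2) where
  x i := if i < s then 2 * s - 2 * i else if i = s then 2 * s + 2 else 0
  a i := if i < s then 7 * s - i + 4 else if i = s then 7 * s + 5 else 6 * s + 4
  c i := if i < s then 9 * s + i + 7 else if i = s then 9 * s + 6 else 12 * s + 8
  e i := if i < s then 11 * s + 3 * i + 11 else if i = s then 11 * s + 8 else 12 * s + 8
  g i := if i < s then 16 * s + 2 * i + 13 else if i = s then 16 * s + 11 else 12 * s + 8
  τ i := if i < s then 18 * s + 12 else if i = s then 9 * s + 6 else 6 * s + 4
  hx i hi := by split_ifs <;> omega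
  ha i hi := by split_ifs <;> omega
  hc i hi := by split_ifs <;> omega
  he i hi := by split_ifs <;> omega
  hg i hi := by split_ifs <;> omega
  hτ i hi := by split_ifs <;> omega

theorem fam4_full {s i : ℕ} (hi : i < s) {p d u o : ℕ} (hu : u < 18 * s + 12)
    (hG : Good (18 * s + 12) (2 * s - 2 * i) (7 * s - i + 4) (9 * s + i + 7)
      (11 * s + 3 * i + 11) (16 * s + 2 * i + 13) p d)
    (ho : (o = u + d ∧ u + d < 18 * s + 12) ∨ (o + (18 * s + 12) = u + d ∧ 18 * s + 12 ≤ u + d)) :
    ∃ i t, (fam4 s).Covers i t u o := by
  refine ⟨i, _, (fam4 s).covers_full (i := i) (p := p) (by omega) ?_ ?_ hu ho⟩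
  · simp only [fam4, if_pos hi]
  · simp only [fam4, if_pos hi]; exact hG

/-- the half-orbit page -/
theorem fam4_half {s p d u o : ℕ} (hu : u < 18 * s + 12) (hp : p < 9 * s + 6) (hd : 1 ≤ d)
    (hG : Good (18 * s + 12) (2 * s + 2) (7 * s + 5) (9 * s + 6) (11 * s + 8) (16 * s + 11) p d)
    (hG' : Good (18 * s + 12) (2 * s + 2) (7 * s + 5) (9 * s + 6) (11 * s + 8) (16 * s + 11)
      (p + (9 * s + 6)) d)
    (ho : (o = u + d ∧ u + d < 18 * s + 12) ∨ (o + (18 * s + 12) = u + d ∧ 18 * s + 12 ≤ u + d)) :
    ∃ i t, (fam4 s).Covers i t u o := by
  have hl : ¬ (s + 1 < s) := by omega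
  have hx : (fam4 s).x s = 2 * s + 2 := by simp [fam4]
  have ha : (fam4 s).a s = 7 * s + 5 := by simp [fam4]
  have hc : (fam4 s).c s = 9 * s + 6 := by simp [fam4]
  have he : (fam4 s).e s = 11 * s + 8 := by simp [fam4]
  have hg : (fam4 s).g s = 16 * s + 11 := by simp [fam4]
  have hτ : (fam4 s).τ s = 9 * s + 6 := by simp [fam4]
  obtain ⟨g1, g2, g3, g4⟩ := hG
  obtain ⟨g1', g2', g3', g4'⟩ := hG'
  -- translation
  by_cases hlt : rot (18 * s + 12) p u < 9 * s + 6
  · refine ⟨s, rot (18 * s + 12) p u, by omega, by rw [hτ]; exact hlt, ?_⟩
    rw [hx, ha, hc, he, hg]
    have hr : rot (18 * s + 12) (rot (18 * s + 12) p u) u = p := rot_rot (by omega) hu rfl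
    rw [hr]
    rcases Nat.lt_or_ge (p + d) (18 * s + 12) with h5 | h5
    · left
      have : rot (18 * s + 12) (rot (18 * s + 12) p u) o = p + d := by
        unfold rot; split_ifs <;> omega
      rw [this]
      exact g3 h5
    · right
      have : rot (18 * s + 12) (rot (18 * s + 12) p u) o = 0 := by
        unfold rot; split_ifs <;> omega
      rw [this]
      exact g4 (by omega)
  · have hlt2 : rot (18 * s + 12) p u < 18 * s + 12 := rot_lt (by omega) hu
    refine ⟨s, rot (18 * s + 12) p u - (9 * s + 6), by omega, by rw [hτ]; omega, ?_⟩
    rw [hx, ha, hc, he, hg]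
    have hr : rot (18 * s + 12) (rot (18 * s + 12) p u - (9 * s + 6)) u = p + (9 * s + 6) := by
      unfold rot at hlt ⊢; split_ifs at hlt <;> split_ifs <;> omega
    rw [hr]
    rcases Nat.lt_or_ge (p + (9 * s + 6) + d) (18 * s + 12) with h5 | h5
    · left
      have : rot (18 * s + 12) (rot (18 * s + 12) p u - (9 * s + 6)) o =
          p + (9 * s + 6) + d := by
        unfold rot at hlt ⊢; split_ifs at hlt <;> split_ifs <;> omega
      rw [this]
      exact g3' h5
    · right
      have : rot (18 * s + 12) (rot (18 * s + 12) p u - (9 * s + 6)) o = 0 := by
        unfold rot at hlt ⊢; split_ifs at hlt <;> split_ifs <;> omega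
      rw [this]
      exact g4' (by omega)

theorem localBook4 (s : ℕ) : LocalBook (⊤ : SimpleGraph (Fin (18 * s + 12))) (6 * s + 4) := by
  refine (fam4 s).localBook (fun i => if i < s then 6 else if i = s then 3 else 1) ?_ ?_ ?_
  · rw [sum_two]
  · refine cover_of_len _ ?_
    intro d u o h1 h2 hu ho' ho
    by_cases c1 : d ≤ 2 * s
    · by_cases c2 : d % 2 = 0
      · exact fam4_full (i := (2 * s - d) / 2) (p := 0) (by omega) hu (by first | exact g1 (by omega) (by omega) (by omega) (by omega) | exact g2 (by omega) (by omega) (by omega) (by omega) | exact g3 (by omega) (by omega) (by omega) (by omega) | exact g4 (by omega) (by omega) (by omega) (by omega) | exact g5 (by omega) (by omega) (by omega) (by omega) | exact g6 (by omega) (by omega) (by omega) | exact g7 (by omega) (by omega) (by omega) (by omega) | exact g8 (by omega) (by omega) (by omega) (by omega) | exact g9 (by omega) (by omega) (by omega) | exact g10 (by omega) (by omega) (by omega) (by omega)) ho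
      · exact fam4_full (i := (2 * s - 1 - d) / 2) (p := 16 * s + 2 * ((2 * s - 1 - d) / 2) + 13)
          (by omega) hu (by first | exact g1 (by omega) (by omega) (by omega) (by omega) | exact g2 (by omega) (by omega) (by omega) (by omega) | exact g3 (by omega) (by omega) (by omega) (by omega) | exact g4 (by omega) (by omega) (by omega) (by omega) | exact g5 (by omega) (by omega) (by omega) (by omega) | exact g6 (by omega) (by omega) (by omega) | exact g7 (by omega) (by omega) (by omega) (by omega) | exact g8 (by omega) (by omega) (by omega) (by omega) | exact g9 (by omega) (by omega) (by omega) | exact g10 (by omega) (by omega) (by omega) (by omega)) ho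
    by_cases c1a : d = 2 * s + 1
    · exact fam4_half (p := 7 * s + 5) hu (by omega) h1 (by first | exact g1 (by omega) (by omega) (by omega) (by omega) | exact g2 (by omega) (by omega) (by omega) (by omega) | exact g3 (by omega) (by omega) (by omega) (by omega) | exact g4 (by omega) (by omega) (by omega) (by omega) | exact g5 (by omega) (by omega) (by omega) (by omega) | exact g6 (by omega) (by omega) (by omega) | exact g7 (by omega) (by omega) (by omega) (by omega) | exact g8 (by omega) (by omega) (by omega) (by omega) | exact g9 (by omega) (by omega) (by omega) | exact g10 (by omega) (by omega) (by omega) (by omega)) (by first | exact g1 (by omega) (by omega) (by omega) (by omega) | exact g2 (by omega) (by omega) (by omega) (by omega) | exact g3 (by omega) (by omega) (by omega) (by omega) | exact g4 (by omega) (by omega) (by omega) (by omega) | exact g5 (by omega) (by omega) (by omega) (by omega) | exact g6 (by omega) (by omega) (by omega) | exact g7 (by omega) (by omega) (by omega) (by omega) | exact g8 (by omega) (by omega) (by omega) (by omega) | exact g9 (by omega) (by omega) (by omega) | exact g10 (by omega) (by omega) (by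 omega) (by omega)) ho
    by_cases c1b : d = 2 * s + 2
    · exact fam4_half (p := 0) hu (by omega) h1 (by first | exact g1 (by omega) (by omega) (by omega) (by omega) | exact g2 (by omega) (by omega) (by omega) (by omega) | exact g3 (by omega) (by omega) (by omega) (by omega) | exact g4 (by omega) (by omega) (by omega) (by omega) | exact g5 (by omega) (by omega) (by omega) (by omega) | exact g6 (by omega) (by omega) (by omega) | exact g7 (by omega) (by omega) (by omega) (by omega) | exact g8 (by omega) (by omega) (by omega) (by omega) | exact g9 (by omega) (by omega) (by omega) | exact g10 (by omega) (by omega) (by omega) (by omega)) (by first | exact g1 (by omega) (by omega) (by omega) (by omega) | exact g2 (by omega) (by omega) (by omega) (by omega) | exact g3 (by omega) (by omega) (by omega) (by omega) | exact g4 (by omega) (by omega) (by omega) (by omega) | exact g5 (by omega) (by omega) (by omega) (by omega) | exact g6 (by omega) (by omega) (by omega) | exact g7 (by omega) (by omega) (by omega) (by omega) | exact g8 (by omega) (by omega) (by omega) (by omega) | exact g9 (by omega) (by omega) (by omega) | exact g10 (by omega) (by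 omega) (by omega) (by omega)) ho
    by_cases c3 : d ≤ 4 * s + 2
    · by_cases c2 : d % 2 = 0
      · exact fam4_full (i := (d - 2 * s - 4) / 2) (p := 9 * s + (d - 2 * s - 4) / 2 + 7)
          (by omega) hu (by first | exact g1 (by omega) (by omega) (by omega) (by omega) | exact g2 (by omega) (by omega) (by omega) (by omega) | exact g3 (by omega) (by omega) (by omega) (by omega) | exact g4 (by omega) (by omega) (by omega) (by omega) | exact g5 (by omega) (by omega) (by omega) (by omega) | exact g6 (by omega) (by omega) (by omega) | exact g7 (by omega) (by omega) (by omega) (by omega) | exact g8 (by omega) (by omega) (by omega) (by omega) | exact g9 (by omega) (by omega) (by omega) | exact g10 (by omega) (by omega) (by omega) (by omega)) ho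
      · exact fam4_full (i := (d - 2 * s - 3) / 2) (p := 7 * s - (d - 2 * s - 3) / 2 + 4)
          (by omega) hu (by first | exact g1 (by omega) (by omega) (by omega) (by omega) | exact g2 (by omega) (by omega) (by omega) (by omega) | exact g3 (by omega) (by omega) (by omega) (by omega) | exact g4 (by omega) (by omega) (by omega) (by omega) | exact g5 (by omega) (by omega) (by omega) (by omega) | exact g6 (by omega) (by omega) (by omega) | exact g7 (by omega) (by omega) (by omega) (by omega) | exact g8 (by omega) (by omega) (by omega) (by omega) | exact g9 (by omega) (by omega) (by omega) | exact g10 (by omega) (by omega) (by omega) (by omega)) ho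
    by_cases c4 : d ≤ 5 * s + 2
    · exact fam4_full (i := 5 * s + 2 - d) (p := 11 * s + 3 * (5 * s + 2 - d) + 11)
        (by omega) hu (by first | exact g1 (by omega) (by omega) (by omega) (by omega) | exact g2 (by omega) (by omega) (by omega) (by omega) | exact g3 (by omega) (by omega) (by omega) (by omega) | exact g4 (by omega) (by omega) (by omega) (by omega) | exact g5 (by omega) (by omega) (by omega) (by omega) | exact g6 (by omega) (by omega) (by omega) | exact g7 (by omega) (by omega) (by omega) (by omega) | exact g8 (by omega) (by omega) (by omega) (by omega) | exact g9 (by omega) (by omega) (by omega) | exact g10 (by omega) (by omega) (by omega) (by omega)) ho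
    by_cases c4a : d = 5 * s + 3
    · exact fam4_half (p := 2 * s + 2) hu (by omega) h1 (by first | exact g1 (by omega) (by omega) (by omega) (by omega) | exact g2 (by omega) (by omega) (by omega) (by omega) | exact g3 (by omega) (by omega) (by omega) (by omega) | exact g4 (by omega) (by omega) (by omega) (by omega) | exact g5 (by omega) (by omega) (by omega) (by omega) | exact g6 (by omega) (by omega) (by omega) | exact g7 (by omega) (by omega) (by omega) (by omega) | exact g8 (by omega) (by omega) (by omega) (by omega) | exact g9 (by omega) (by omega) (by omega) | exact g10 (by omega) (by omega) (by omega) (by omega)) (by first | exact g1 (by omega) (by omega) (by omega) (by omega) | exact g2 (by omega) (by omega) (by omega) (by omega) | exact g3 (by omega) (by omega) (by omega) (by omega) | exact g4 (by omega) (by omega) (by omega) (by omega) | exact g5 (by omega) (by omega) (by omega) (by omega) | exact g6 (by omega) (by omega) (by omega) | exact g7 (by omega) (by omega) (by omega) (by omega) | exact g8 (by omega) (by omega) (by omega) (by omega) | exact g9 (by omega) (by omega) (by omega) | exact g10 (by omega) (by omega) (by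 omega) (by omega)) ho
    by_cases c5 : d ≤ 6 * s + 3
    · exact fam4_full (i := d - 5 * s - 4) (p := 2 * s - 2 * (d - 5 * s - 4))
        (by omega) hu (by first | exact g1 (by omega) (by omega) (by omega) (by omega) | exact g2 (by omega) (by omega) (by omega) (by omega) | exact g3 (by omega) (by omega) (by omega) (by omega) | exact g4 (by omega) (by omega) (by omega) (by omega) | exact g5 (by omega) (by omega) (by omega) (by omega) | exact g6 (by omega) (by omega) (by omega) | exact g7 (by omega) (by omega) (by omega) (by omega) | exact g8 (by omega) (by omega) (by omega) (by omega) | exact g9 (by omega) (by omega) (by omega) | exact g10 (by omega) (by omega) (by omega) (by omega)) ho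
    by_cases c6 : d = 6 * s + 4
    · -- triangle
      subst c6
      have hl : ¬ (s + 1 < s) := by omega
      have hl2 : ¬ (s + 1 = s) := by omega
      refine ⟨s + 1, if u < 6 * s + 4 then u else if u < 12 * s + 8 then u - (6 * s + 4)
        else u - (12 * s + 8), by omega, ?_, ?_⟩
      · simp only [fam4, if_neg hl, if_neg hl2]
        split_ifs <;> omega
      · simp only [fam4, if_neg hl, if_neg hl2]
        rcases Nat.lt_or_ge u (6 * s + 4) with hu1 | hu1
        · rw [if_pos hu1]
          left
          have e1 : rot (18 * s + 12) u u = 0 := by unfold rot; split_ifs <;> omega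
          have e2 : rot (18 * s + 12) u o = 6 * s + 4 := by unfold rot; split_ifs <;> omega
          rw [e1, e2]; exact hex_a _ _ _ _ _
        · rw [if_neg (by omega)]
          rcases Nat.lt_or_ge u (12 * s + 8) with hu2 | hu2
          · rw [if_pos hu2]
            left
            have e1 : rot (18 * s + 12) (u - (6 * s + 4)) u = 6 * s + 4 := by
              unfold rot; split_ifs <;> omega
            have e2 : rot (18 * s + 12) (u - (6 * s + 4)) o = 12 * s + 8 := by
              unfold rot; split_ifs <;> omega
            rw [e1, e2]; exact hex_ac _ _ _ _ _
          · rw [if_neg (by omega)]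
            right
            have e1 : rot (18 * s + 12) (u - (12 * s + 8)) u = 12 * s + 8 := by
              unfold rot; split_ifs <;> omega
            have e2 : rot (18 * s + 12) (u - (12 * s + 8)) o = 0 := by
              unfold rot; split_ifs <;> omega
            rw [e1, e2]; exact hex_c _ _ _ _ _
    by_cases c7 : d ≤ 7 * s + 4
    · exact fam4_full (i := 7 * s + 4 - d) (p := 0) (by omega) hu (by first | exact g1 (by omega) (by omega) (by omega) (by omega) | exact g2 (by omega) (by omega) (by omega) (by omega) | exact g3 (by omega) (by omega) (by omega) (by omega) | exact g4 (by omega) (by omega) (by omega) (by omega) | exact g5 (by omega) (by omega) (by omega) (by omega) | exact g6 (by omega) (by omega) (by omega) | exact g7 (by omega) (by omega) (by omega) (by omega) | exact g8 (by omega) (by omega) (by omega) (by omega) | exact g9 (by omega) (by omega) (by omega) | exact g10 (by omega) (by omega) (by omega) (by omega)) ho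
    by_cases c7a : d = 7 * s + 5
    · exact fam4_half (p := 0) hu (by omega) h1 (by first | exact g1 (by omega) (by omega) (by omega) (by omega) | exact g2 (by omega) (by omega) (by omega) (by omega) | exact g3 (by omega) (by omega) (by omega) (by omega) | exact g4 (by omega) (by omega) (by omega) (by omega) | exact g5 (by omega) (by omega) (by omega) (by omega) | exact g6 (by omega) (by omega) (by omega) | exact g7 (by omega) (by omega) (by omega) (by omega) | exact g8 (by omega) (by omega) (by omega) (by omega) | exact g9 (by omega) (by omega) (by omega) | exact g10 (by omega) (by omega) (by omega) (by omega)) (by first | exact g1 (by omega) (by omega) (by omega) (by omega) | exact g2 (by omega) (by omega) (by omega) (by omega) | exact g3 (by omega) (by omega) (by omega) (by omega) | exact g4 (by omega) (by omega) (by omega) (by omega) | exact g5 (by omega) (by omega) (by omega) (by omega) | exact g6 (by omega) (by omega) (by omega) | exact g7 (by omega) (by omega) (by omega) (by omega) | exact g8 (by omega) (by omega) (by omega) (by omega) | exact g9 (by omega) (by omega) (by omega) | exact g10 (by omega) (by omega) (by omega) (by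 omega)) ho
    by_cases c8 : d ≤ 8 * s + 5
    · exact fam4_full (i := d - 7 * s - 6) (p := 9 * s + (d - 7 * s - 6) + 7)
        (by omega) hu (by first | exact g1 (by omega) (by omega) (by omega) (by omega) | exact g2 (by omega) (by omega) (by omega) (by omega) | exact g3 (by omega) (by omega) (by omega) (by omega) | exact g4 (by omega) (by omega) (by omega) (by omega) | exact g5 (by omega) (by omega) (by omega) (by omega) | exact g6 (by omega) (by omega) (by omega) | exact g7 (by omega) (by omega) (by omega) (by omega) | exact g8 (by omega) (by omega) (by omega) (by omega) | exact g9 (by omega) (by omega) (by omega) | exact g10 (by omega) (by omega) (by omega) (by omega)) ho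
    by_cases c9 : d ≤ 9 * s + 5
    · exact fam4_full (i := 9 * s + 5 - d) (p := 9 * s + (9 * s + 5 - d) + 7)
        (by omega) hu (by first | exact g1 (by omega) (by omega) (by omega) (by omega) | exact g2 (by omega) (by omega) (by omega) (by omega) | exact g3 (by omega) (by omega) (by omega) (by omega) | exact g4 (by omega) (by omega) (by omega) (by omega) | exact g5 (by omega) (by omega) (by omega) (by omega) | exact g6 (by omega) (by omega) (by omega) | exact g7 (by omega) (by omega) (by omega) (by omega) | exact g8 (by omega) (by omega) (by omega) (by omega) | exact g9 (by omega) (by omega) (by omega) | exact g10 (by omega) (by omega) (by omega) (by omega)) ho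
    · exact fam4_half (p := 0) hu (by omega) h1 (by first | exact g1 (by omega) (by omega) (by omega) (by omega) | exact g2 (by omega) (by omega) (by omega) (by omega) | exact g3 (by omega) (by omega) (by omega) (by omega) | exact g4 (by omega) (by omega) (by omega) (by omega) | exact g5 (by omega) (by omega) (by omega) (by omega) | exact g6 (by omega) (by omega) (by omega) | exact g7 (by omega) (by omega) (by omega) (by omega) | exact g8 (by omega) (by omega) (by omega) (by omega) | exact g9 (by omega) (by omega) (by omega) | exact g10 (by omega) (by omega) (by omega) (by omega)) (by first | exact g1 (by omega) (by omega) (by omega) (by omega) | exact g2 (by omega) (by omega) (by omega) (by omega) | exact g3 (by omega) (by omega) (by omega) (by omega) | exact g4 (by omega) (by omega) (by omega) (by omega) | exact g5 (by omega) (by omega) (by omega) (by omega) | exact g6 (by omega) (by omega) (by omega) | exact g7 (by omega) (by omega) (by omega) (by omega) | exact g8 (by omega) (by omega) (by omega) (by omega) | exact g9 (by omega) (by omega) (by omega) | exact g10 (by omega) (by omega) (by omega) (by omega)) ho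
  · intro i hi v hv
    by_cases h : i < s
    · simp only [fam4, if_pos h]
      exact full_loc hv
    · by_cases h' : i = s
      · simp only [fam4, if_neg h, if_pos h']
        refine ⟨{rot (18 * s + 12) 0 v - (if rot (18 * s + 12) 0 v < 9 * s + 6 then 0 else 9 * s + 6),
          rot (18 * s + 12) (2 * s + 2) v -
            (if rot (18 * s + 12) (2 * s + 2) v < 9 * s + 6 then 0 else 9 * s + 6),
          rot (18 * s + 12) (7 * s + 5) v -
            (if rot (18 * s + 12) (7 * s + 5) v < 9 * s + 6 then 0 else 9 * s + 6)},
          card_le_three, ?_⟩
        intro t ht hmem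
        simp only [hexV, mem_insert, mem_singleton] at hmem ⊢
        unfold rot at hmem ⊢
        split_ifs at hmem <;> split_ifs <;> omega
      · simp only [fam4, if_neg h, if_neg h']
        refine ⟨{if v < 6 * s + 4 then v else if v < 12 * s + 8 then v - (6 * s + 4)
          else v - (12 * s + 8)}, by simp, ?_⟩
        intro t ht hmem
        simp only [hexV, mem_insert, mem_singleton] at hmem ⊢
        unfold rot at hmem
        split_ifs at hmem <;> split_ifs <;> omega

/-- `n = 18 s + 15`, `k = 6 s + 5`. -/
def fam5 (s : ℕ) : Fam (18 * s + 15) (s + 1) where
  x i := if i < s then 2 * s - 2 * i else 4 * s + 2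
  a i := if i < s then 7 * s - i + 5 else 8 * s + 6
  c i := if i < s then 9 * s + i + 8 else 8 * s + 7
  e i := if i < s then 11 * s + 3 * i + 10 else 8 * s + 7
  g i := if i < s then 16 * s + 2 * i + 14 else 12 * s + 10
  τ _ := 18 * s + 15
  hx i hi := by split_ifs <;> omega
  ha i hi := by split_ifs <;> omega
  hc i hi := by split_ifs <;> omega
  he i hi := by split_ifs <;> omega
  hg i hi := by split_ifs <;> omega
  hτ i hi := by omega

theorem fam5_full {s i : ℕ} (hi : i < s) {p d u o : ℕ} (hu : u < 18 * s + 15)
    (hG : Good (18 * s + 15) (2 * s - 2 * i) (7 * s - i + 5) (9 * s + i + 8)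
      (11 * s + 3 * i + 10) (16 * s + 2 * i + 14) p d)
    (ho : (o = u + d ∧ u + d < 18 * s + 15) ∨ (o + (18 * s + 15) = u + d ∧ 18 * s + 15 ≤ u + d)) :
    ∃ i t, (fam5 s).Covers i t u o := by
  refine ⟨i, _, (fam5 s).covers_full (i := i) (p := p) (by omega) rfl ?_ hu ho⟩
  simp only [fam5, if_pos hi]; exact hG

theorem fam5_pent {s : ℕ} {p d u o : ℕ} (hu : u < 18 * s + 15)
    (hG : Good (18 * s + 15) (4 * s + 2) (8 * s + 6) (8 * s + 7) (8 * s + 7) (12 * s + 10) p d)
    (ho : (o = u + d ∧ u + d < 18 * s + 15) ∨ (o + (18 * s + 15) = u + d ∧ 18 * s + 15 ≤ u + d)) :
    ∃ i t, (fam5 s).Covers i t u o := by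
  refine ⟨s, _, (fam5 s).covers_full (i := s) (p := p) (by omega) rfl ?_ hu ho⟩
  simp only [fam5, if_neg (lt_irrefl s)]; exact hG

theorem localBook5 (s : ℕ) : LocalBook (⊤ : SimpleGraph (Fin (18 * s + 15))) (6 * s + 5) := by
  refine (fam5 s).localBook (fun i => if i < s then 6 else 5) ?_ ?_ ?_
  · rw [sum_one]
  · refine cover_of_len _ ?_
    intro d u o h1 h2 hu ho' ho
    by_cases c0 : d = 1
    · exact fam5_pent (p := 8 * s + 6) hu (by first | exact g1 (by omega) (by omega) (by omega) (by omega) | exact g2 (by omega) (by omega) (by omega) (by omega) | exact g3 (by omega) (by omega) (by omega) (by omega) | exact g4 (by omega) (by omega) (by omega) (by omega) | exact g5 (by omega) (by omega) (by omega) (by omega) | exact g6 (by omega) (by omega) (by omega) | exact g7 (by omega) (by omega) (by omega) (by omega) | exact g8 (by omega) (by omega) (by omega) (by omega) | exact g9 (by omega) (by omega) (by omega) | exact g10 (by omega) (by omega) (by omega) (by omega)) ho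
    by_cases c1 : d ≤ 2 * s + 1
    · by_cases c2 : d % 2 = 0
      · exact fam5_full (i := (2 * s - d) / 2) (p := 0) (by omega) hu (by first | exact g1 (by omega) (by omega) (by omega) (by omega) | exact g2 (by omega) (by omega) (by omega) (by omega) | exact g3 (by omega) (by omega) (by omega) (by omega) | exact g4 (by omega) (by omega) (by omega) (by omega) | exact g5 (by omega) (by omega) (by omega) (by omega) | exact g6 (by omega) (by omega) (by omega) | exact g7 (by omega) (by omega) (by omega) (by omega) | exact g8 (by omega) (by omega) (by omega) (by omega) | exact g9 (by omega) (by omega) (by omega) | exact g10 (by omega) (by omega) (by omega) (by omega)) ho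
      · exact fam5_full (i := (2 * s + 1 - d) / 2) (p := 16 * s + 2 * ((2 * s + 1 - d) / 2) + 14)
          (by omega) hu (by first | exact g1 (by omega) (by omega) (by omega) (by omega) | exact g2 (by omega) (by omega) (by omega) (by omega) | exact g3 (by omega) (by omega) (by omega) (by omega) | exact g4 (by omega) (by omega) (by omega) (by omega) | exact g5 (by omega) (by omega) (by omega) (by omega) | exact g6 (by omega) (by omega) (by omega) | exact g7 (by omega) (by omega) (by omega) (by omega) | exact g8 (by omega) (by omega) (by omega) (by omega) | exact g9 (by omega) (by omega) (by omega) | exact g10 (by omega) (by omega) (by omega) (by omega)) ho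
    by_cases c3 : d ≤ 4 * s + 1
    · by_cases c2 : d % 2 = 0
      · exact fam5_full (i := (d - 2 * s - 2) / 2) (p := 9 * s + (d - 2 * s - 2) / 2 + 8)
          (by omega) hu (by first | exact g1 (by omega) (by omega) (by omega) (by omega) | exact g2 (by omega) (by omega) (by omega) (by omega) | exact g3 (by omega) (by omega) (by omega) (by omega) | exact g4 (by omega) (by omega) (by omega) (by omega) | exact g5 (by omega) (by omega) (by omega) (by omega) | exact g6 (by omega) (by omega) (by omega) | exact g7 (by omega) (by omega) (by omega) (by omega) | exact g8 (by omega) (by omega) (by omega) (by omega) | exact g9 (by omega) (by omega) (by omega) | exact g10 (by omega) (by omega) (by omega) (by omega)) ho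
      · exact fam5_full (i := (d - 2 * s - 3) / 2) (p := 7 * s - (d - 2 * s - 3) / 2 + 5)
          (by omega) hu (by first | exact g1 (by omega) (by omega) (by omega) (by omega) | exact g2 (by omega) (by omega) (by omega) (by omega) | exact g3 (by omega) (by omega) (by omega) (by omega) | exact g4 (by omega) (by omega) (by omega) (by omega) | exact g5 (by omega) (by omega) (by omega) (by omega) | exact g6 (by omega) (by omega) (by omega) | exact g7 (by omega) (by omega) (by omega) (by omega) | exact g8 (by omega) (by omega) (by omega) (by omega) | exact g9 (by omega) (by omega) (by omega) | exact g10 (by omega) (by omega) (by omega) (by omega)) ho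
    by_cases c3a : d = 4 * s + 2
    · exact fam5_pent (p := 0) hu (by first | exact g1 (by omega) (by omega) (by omega) (by omega) | exact g2 (by omega) (by omega) (by omega) (by omega) | exact g3 (by omega) (by omega) (by omega) (by omega) | exact g4 (by omega) (by omega) (by omega) (by omega) | exact g5 (by omega) (by omega) (by omega) (by omega) | exact g6 (by omega) (by omega) (by omega) | exact g7 (by omega) (by omega) (by omega) (by omega) | exact g8 (by omega) (by omega) (by omega) (by omega) | exact g9 (by omega) (by omega) (by omega) | exact g10 (by omega) (by omega) (by omega) (by omega)) ho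
    by_cases c3b : d = 4 * s + 3
    · exact fam5_pent (p := 8 * s + 7) hu (by first | exact g1 (by omega) (by omega) (by omega) (by omega) | exact g2 (by omega) (by omega) (by omega) (by omega) | exact g3 (by omega) (by omega) (by omega) (by omega) | exact g4 (by omega) (by omega) (by omega) (by omega) | exact g5 (by omega) (by omega) (by omega) (by omega) | exact g6 (by omega) (by omega) (by omega) | exact g7 (by omega) (by omega) (by omega) (by omega) | exact g8 (by omega) (by omega) (by omega) (by omega) | exact g9 (by omega) (by omega) (by omega) | exact g10 (by omega) (by omega) (by omega) (by omega)) ho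
    by_cases c3c : d = 4 * s + 4
    · exact fam5_pent (p := 4 * s + 2) hu (by first | exact g1 (by omega) (by omega) (by omega) (by omega) | exact g2 (by omega) (by omega) (by omega) (by omega) | exact g3 (by omega) (by omega) (by omega) (by omega) | exact g4 (by omega) (by omega) (by omega) (by omega) | exact g5 (by omega) (by omega) (by omega) (by omega) | exact g6 (by omega) (by omega) (by omega) | exact g7 (by omega) (by omega) (by omega) (by omega) | exact g8 (by omega) (by omega) (by omega) (by omega) | exact g9 (by omega) (by omega) (by omega) | exact g10 (by omega) (by omega) (by omega) (by omega)) ho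
    by_cases c4 : d ≤ 5 * s + 4
    · exact fam5_full (i := 5 * s + 4 - d) (p := 11 * s + 3 * (5 * s + 4 - d) + 10)
        (by omega) hu (by first | exact g1 (by omega) (by omega) (by omega) (by omega) | exact g2 (by omega) (by omega) (by omega) (by omega) | exact g3 (by omega) (by omega) (by omega) (by omega) | exact g4 (by omega) (by omega) (by omega) (by omega) | exact g5 (by omega) (by omega) (by omega) (by omega) | exact g6 (by omega) (by omega) (by omega) | exact g7 (by omega) (by omega) (by omega) (by omega) | exact g8 (by omega) (by omega) (by omega) (by omega) | exact g9 (by omega) (by omega) (by omega) | exact g10 (by omega) (by omega) (by omega) (by omega)) ho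
    by_cases c5 : d ≤ 6 * s + 4
    · exact fam5_full (i := d - 5 * s - 5) (p := 2 * s - 2 * (d - 5 * s - 5))
        (by omega) hu (by first | exact g1 (by omega) (by omega) (by omega) (by omega) | exact g2 (by omega) (by omega) (by omega) (by omega) | exact g3 (by omega) (by omega) (by omega) (by omega) | exact g4 (by omega) (by omega) (by omega) (by omega) | exact g5 (by omega) (by omega) (by omega) (by omega) | exact g6 (by omega) (by omega) (by omega) | exact g7 (by omega) (by omega) (by omega) (by omega) | exact g8 (by omega) (by omega) (by omega) (by omega) | exact g9 (by omega) (by omega) (by omega) | exact g10 (by omega) (by omega) (by omega) (by omega)) ho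
    by_cases c6 : d = 6 * s + 5
    · exact fam5_pent (p := 12 * s + 10) hu (by first | exact g1 (by omega) (by omega) (by omega) (by omega) | exact g2 (by omega) (by omega) (by omega) (by omega) | exact g3 (by omega) (by omega) (by omega) (by omega) | exact g4 (by omega) (by omega) (by omega) (by omega) | exact g5 (by omega) (by omega) (by omega) (by omega) | exact g6 (by omega) (by omega) (by omega) | exact g7 (by omega) (by omega) (by omega) (by omega) | exact g8 (by omega) (by omega) (by omega) (by omega) | exact g9 (by omega) (by omega) (by omega) | exact g10 (by omega) (by omega) (by omega) (by omega)) ho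
    by_cases c7 : d ≤ 7 * s + 5
    · exact fam5_full (i := 7 * s + 5 - d) (p := 0) (by omega) hu (by first | exact g1 (by omega) (by omega) (by omega) (by omega) | exact g2 (by omega) (by omega) (by omega) (by omega) | exact g3 (by omega) (by omega) (by omega) (by omega) | exact g4 (by omega) (by omega) (by omega) (by omega) | exact g5 (by omega) (by omega) (by omega) (by omega) | exact g6 (by omega) (by omega) (by omega) | exact g7 (by omega) (by omega) (by omega) (by omega) | exact g8 (by omega) (by omega) (by omega) (by omega) | exact g9 (by omega) (by omega) (by omega) | exact g10 (by omega) (by omega) (by omega) (by omega)) ho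
    by_cases c8 : d ≤ 8 * s + 5
    · exact fam5_full (i := d - 7 * s - 6) (p := 9 * s + (d - 7 * s - 6) + 8)
        (by omega) hu (by first | exact g1 (by omega) (by omega) (by omega) (by omega) | exact g2 (by omega) (by omega) (by omega) (by omega) | exact g3 (by omega) (by omega) (by omega) (by omega) | exact g4 (by omega) (by omega) (by omega) (by omega) | exact g5 (by omega) (by omega) (by omega) (by omega) | exact g6 (by omega) (by omega) (by omega) | exact g7 (by omega) (by omega) (by omega) (by omega) | exact g8 (by omega) (by omega) (by omega) (by omega) | exact g9 (by omega) (by omega) (by omega) | exact g10 (by omega) (by omega) (by omega) (by omega)) ho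
    by_cases c8a : d = 8 * s + 6
    · exact fam5_pent (p := 0) hu (by first | exact g1 (by omega) (by omega) (by omega) (by omega) | exact g2 (by omega) (by omega) (by omega) (by omega) | exact g3 (by omega) (by omega) (by omega) (by omega) | exact g4 (by omega) (by omega) (by omega) (by omega) | exact g5 (by omega) (by omega) (by omega) (by omega) | exact g6 (by omega) (by omega) (by omega) | exact g7 (by omega) (by omega) (by omega) (by omega) | exact g8 (by omega) (by omega) (by omega) (by omega) | exact g9 (by omega) (by omega) (by omega) | exact g10 (by omega) (by omega) (by omega) (by omega)) ho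
    by_cases c8b : d = 8 * s + 7
    · exact fam5_pent (p := 0) hu (by first | exact g1 (by omega) (by omega) (by omega) (by omega) | exact g2 (by omega) (by omega) (by omega) (by omega) | exact g3 (by omega) (by omega) (by omega) (by omega) | exact g4 (by omega) (by omega) (by omega) (by omega) | exact g5 (by omega) (by omega) (by omega) (by omega) | exact g6 (by omega) (by omega) (by omega) | exact g7 (by omega) (by omega) (by omega) (by omega) | exact g8 (by omega) (by omega) (by omega) (by omega) | exact g9 (by omega) (by omega) (by omega) | exact g10 (by omega) (by omega) (by omega) (by omega)) ho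
    · exact fam5_full (i := 9 * s + 7 - d) (p := 9 * s + (9 * s + 7 - d) + 8)
        (by omega) hu (by first | exact g1 (by omega) (by omega) (by omega) (by omega) | exact g2 (by omega) (by omega) (by omega) (by omega) | exact g3 (by omega) (by omega) (by omega) (by omega) | exact g4 (by omega) (by omega) (by omega) (by omega) | exact g5 (by omega) (by omega) (by omega) (by omega) | exact g6 (by omega) (by omega) (by omega) | exact g7 (by omega) (by omega) (by omega) (by omega) | exact g8 (by omega) (by omega) (by omega) (by omega) | exact g9 (by omega) (by omega) (by omega) | exact g10 (by omega) (by omega) (by omega) (by omega)) ho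
  · intro i hi v hv
    by_cases h : i < s
    · simp only [fam5, if_pos h]
      exact full_loc hv
    · simp only [fam5, if_neg h]
      refine ⟨(({0, 4 * s + 2, 8 * s + 6, 8 * s + 7, 12 * s + 10} : Finset ℕ)).image
        (fun p => rot (18 * s + 15) p v), card_image_le.trans card_le_five, ?_⟩
      intro t ht hmem
      rw [mem_image]
      refine ⟨_, ?_, rot_rot ht hv rfl⟩
      simp only [hexV, mem_insert, mem_singleton] at hmem ⊢
      omega

/-- `n = 18 s + 24`, `k = 6 s + 8`. -/
def fam2 (s : ℕ) : Fam (18 * s + 24) (s + 2) where
  x i := if i < s then 2 * s - 2 * i + 1 else if i = s then 2 * s + 2 else 0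
  a i := if i < s then 7 * s - i + 10 else if i = s then 6 * s + 9 else 4 * s + 4
  c i := if i < s then 9 * s + i + 13 else if i = s then 6 * s + 10 else 9 * s + 12
  e i := if i < s then 11 * s + 3 * i + 17 else if i = s then 10 * s + 15 else 9 * s + 12
  g i := if i < s then 16 * s + 2 * i + 24 else if i = s then 14 * s + 21 else 13 * s + 16
  τ i := if i < s then 18 * s + 24 else if i = s then 18 * s + 24 else 9 * s + 12
  hx i hi := by split_ifs <;> omega
  ha i hi := by split_ifs <;> omega
  hc i hi := by split_ifs <;> omega
  he i hi := by split_ifs <;> omega
  hg i hi := by split_ifs <;> omega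
  hτ i hi := by split_ifs <;> omega

theorem fam2_full {s i : ℕ} (hi : i < s) {p d u o : ℕ} (hu : u < 18 * s + 24)
    (hG : Good (18 * s + 24) (2 * s - 2 * i + 1) (7 * s - i + 10) (9 * s + i + 13)
      (11 * s + 3 * i + 17) (16 * s + 2 * i + 24) p d)
    (ho : (o = u + d ∧ u + d < 18 * s + 24) ∨ (o + (18 * s + 24) = u + d ∧ 18 * s + 24 ≤ u + d)) :
    ∃ i t, (fam2 s).Covers i t u o := by
  refine ⟨i, _, (fam2 s).covers_full (i := i) (p := p) (by omega) ?_ ?_ hu ho⟩
  · simp only [fam2, if_pos hi]
  · simp only [fam2, if_pos hi]; exact hG

theorem fam2_extra {s : ℕ} {p d u o : ℕ} (hu : u < 18 * s + 24)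
    (hG : Good (18 * s + 24) (2 * s + 2) (6 * s + 9) (6 * s + 10) (10 * s + 15) (14 * s + 21) p d)
    (ho : (o = u + d ∧ u + d < 18 * s + 24) ∨ (o + (18 * s + 24) = u + d ∧ 18 * s + 24 ≤ u + d)) :
    ∃ i t, (fam2 s).Covers i t u o := by
  refine ⟨s, _, (fam2 s).covers_full (i := s) (p := p) (by omega) ?_ ?_ hu ho⟩
  · simp [fam2]
  · simp only [fam2, if_neg (lt_irrefl s)]; exact hG

/-- the half-orbit page -/
theorem fam2_half {s p d u o : ℕ} (hu : u < 18 * s + 24) (hp : p < 9 * s + 12) (hd : 1 ≤ d)
    (hG : Good (18 * s + 24) 0 (4 * s + 4) (9 * s + 12) (9 * s + 12) (13 * s + 16) p d)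
    (hG' : Good (18 * s + 24) 0 (4 * s + 4) (9 * s + 12) (9 * s + 12) (13 * s + 16)
      (p + (9 * s + 12)) d)
    (ho : (o = u + d ∧ u + d < 18 * s + 24) ∨ (o + (18 * s + 24) = u + d ∧ 18 * s + 24 ≤ u + d)) :
    ∃ i t, (fam2 s).Covers i t u o := by
  have hl : ¬ (s + 1 < s) := by omega
  have hl2 : ¬ (s + 1 = s) := by omega
  have hx : (fam2 s).x (s + 1) = 0 := by simp only [fam2, if_neg hl, if_neg hl2]
  have ha : (fam2 s).a (s + 1) = 4 * s + 4 := by simp only [fam2, if_neg hl, if_neg hl2]
  have hc : (fam2 s).c (s + 1) = 9 * s + 12 := by simp only [fam2, if_neg hl, if_neg hl2]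
  have he : (fam2 s).e (s + 1) = 9 * s + 12 := by simp only [fam2, if_neg hl, if_neg hl2]
  have hg : (fam2 s).g (s + 1) = 13 * s + 16 := by simp only [fam2, if_neg hl, if_neg hl2]
  have hτ : (fam2 s).τ (s + 1) = 9 * s + 12 := by simp only [fam2, if_neg hl, if_neg hl2]
  obtain ⟨g1, g2, g3, g4⟩ := hG
  obtain ⟨g1', g2', g3', g4'⟩ := hG'
  by_cases hlt : rot (18 * s + 24) p u < 9 * s + 12
  · refine ⟨s + 1, rot (18 * s + 24) p u, by omega, by rw [hτ]; exact hlt, ?_⟩
    rw [hx, ha, hc, he, hg]
    have hr : rot (18 * s + 24) (rot (18 * s + 24) p u) u = p := rot_rot (by omega) hu rfl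
    rw [hr]
    rcases Nat.lt_or_ge (p + d) (18 * s + 24) with h5 | h5
    · left
      have : rot (18 * s + 24) (rot (18 * s + 24) p u) o = p + d := by
        unfold rot; split_ifs <;> omega
      rw [this]
      exact g3 h5
    · right
      have : rot (18 * s + 24) (rot (18 * s + 24) p u) o = 0 := by
        unfold rot; split_ifs <;> omega
      rw [this]
      exact g4 (by omega)
  · have hlt2 : rot (18 * s + 24) p u < 18 * s + 24 := rot_lt (by omega) hu
    refine ⟨s + 1, rot (18 * s + 24) p u - (9 * s + 12), by omega, by rw [hτ]; omega, ?_⟩
    rw [hx, ha, hc, he, hg]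
    have hr : rot (18 * s + 24) (rot (18 * s + 24) p u - (9 * s + 12)) u = p + (9 * s + 12) := by
      unfold rot at hlt ⊢; split_ifs at hlt <;> split_ifs <;> omega
    rw [hr]
    rcases Nat.lt_or_ge (p + (9 * s + 12) + d) (18 * s + 24) with h5 | h5
    · left
      have : rot (18 * s + 24) (rot (18 * s + 24) p u - (9 * s + 12)) o =
          p + (9 * s + 12) + d := by
        unfold rot at hlt ⊢; split_ifs at hlt <;> split_ifs <;> omega
      rw [this]
      exact g3' h5
    · right
      have : rot (18 * s + 24) (rot (18 * s + 24) p u - (9 * s + 12)) o = 0 := by
        unfold rot at hlt ⊢; split_ifs at hlt <;> split_ifs <;> omega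
      rw [this]
      exact g4' (by omega)

theorem localBook2 (s : ℕ) : LocalBook (⊤ : SimpleGraph (Fin (18 * s + 24))) (6 * s + 8) := by
  refine (fam2 s).localBook (fun i => if i < s then 6 else if i = s then 6 else 2) ?_ ?_ ?_
  · rw [sum_two]
  · refine cover_of_len _ ?_
    intro d u o h1 h2 hu ho' ho
    by_cases c0 : d = 1
    · exact fam2_extra (p := 6 * s + 9) hu (by first | exact g1 (by omega) (by omega) (by omega) (by omega) | exact g2 (by omega) (by omega) (by omega) (by omega) | exact g3 (by omega) (by omega) (by omega) (by omega) | exact g4 (by omega) (by omega) (by omega) (by omega) | exact g5 (by omega) (by omega) (by omega) (by omega) | exact g6 (by omega) (by omega) (by omega) | exact g7 (by omega) (by omega) (by omega) (by omega) | exact g8 (by omega) (by omega) (by omega) (by omega) | exact g9 (by omega) (by omega) (by omega) | exact g10 (by omega) (by omega) (by omega) (by omega)) ho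
    by_cases c1 : d ≤ 2 * s + 1
    · by_cases c2 : d % 2 = 0
      · exact fam2_full (i := (2 * s - d) / 2) (p := 16 * s + 2 * ((2 * s - d) / 2) + 24)
          (by omega) hu (by first | exact g1 (by omega) (by omega) (by omega) (by omega) | exact g2 (by omega) (by omega) (by omega) (by omega) | exact g3 (by omega) (by omega) (by omega) (by omega) | exact g4 (by omega) (by omega) (by omega) (by omega) | exact g5 (by omega) (by omega) (by omega) (by omega) | exact g6 (by omega) (by omega) (by omega) | exact g7 (by omega) (by omega) (by omega) (by omega) | exact g8 (by omega) (by omega) (by omega) (by omega) | exact g9 (by omega) (by omega) (by omega) | exact g10 (by omega) (by omega) (by omega) (by omega)) ho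
      · exact fam2_full (i := (2 * s + 1 - d) / 2) (p := 0) (by omega) hu (by first | exact g1 (by omega) (by omega) (by omega) (by omega) | exact g2 (by omega) (by omega) (by omega) (by omega) | exact g3 (by omega) (by omega) (by omega) (by omega) | exact g4 (by omega) (by omega) (by omega) (by omega) | exact g5 (by omega) (by omega) (by omega) (by omega) | exact g6 (by omega) (by omega) (by omega) | exact g7 (by omega) (by omega) (by omega) (by omega) | exact g8 (by omega) (by omega) (by omega) (by omega) | exact g9 (by omega) (by omega) (by omega) | exact g10 (by omega) (by omega) (by omega) (by omega)) ho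
    by_cases c1a : d = 2 * s + 2
    · exact fam2_extra (p := 0) hu (by first | exact g1 (by omega) (by omega) (by omega) (by omega) | exact g2 (by omega) (by omega) (by omega) (by omega) | exact g3 (by omega) (by omega) (by omega) (by omega) | exact g4 (by omega) (by omega) (by omega) (by omega) | exact g5 (by omega) (by omega) (by omega) (by omega) | exact g6 (by omega) (by omega) (by omega) | exact g7 (by omega) (by omega) (by omega) (by omega) | exact g8 (by omega) (by omega) (by omega) (by omega) | exact g9 (by omega) (by omega) (by omega) | exact g10 (by omega) (by omega) (by omega) (by omega)) ho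
    by_cases c3 : d ≤ 4 * s + 2
    · by_cases c2 : d % 2 = 0
      · exact fam2_full (i := (d - 2 * s - 4) / 2) (p := 9 * s + (d - 2 * s - 4) / 2 + 13)
          (by omega) hu (by first | exact g1 (by omega) (by omega) (by omega) (by omega) | exact g2 (by omega) (by omega) (by omega) (by omega) | exact g3 (by omega) (by omega) (by omega) (by omega) | exact g4 (by omega) (by omega) (by omega) (by omega) | exact g5 (by omega) (by omega) (by omega) (by omega) | exact g6 (by omega) (by omega) (by omega) | exact g7 (by omega) (by omega) (by omega) (by omega) | exact g8 (by omega) (by omega) (by omega) (by omega) | exact g9 (by omega) (by omega) (by omega) | exact g10 (by omega) (by omega) (by omega) (by omega)) ho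
      · exact fam2_full (i := (d - 2 * s - 3) / 2) (p := 7 * s - (d - 2 * s - 3) / 2 + 10)
          (by omega) hu (by first | exact g1 (by omega) (by omega) (by omega) (by omega) | exact g2 (by omega) (by omega) (by omega) (by omega) | exact g3 (by omega) (by omega) (by omega) (by omega) | exact g4 (by omega) (by omega) (by omega) (by omega) | exact g5 (by omega) (by omega) (by omega) (by omega) | exact g6 (by omega) (by omega) (by omega) | exact g7 (by omega) (by omega) (by omega) (by omega) | exact g8 (by omega) (by omega) (by omega) (by omega) | exact g9 (by omega) (by omega) (by omega) | exact g10 (by omega) (by omega) (by omega) (by omega)) ho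
    by_cases c3a : d = 4 * s + 3
    · exact fam2_extra (p := 14 * s + 21) hu (by first | exact g1 (by omega) (by omega) (by omega) (by omega) | exact g2 (by omega) (by omega) (by omega) (by omega) | exact g3 (by omega) (by omega) (by omega) (by omega) | exact g4 (by omega) (by omega) (by omega) (by omega) | exact g5 (by omega) (by omega) (by omega) (by omega) | exact g6 (by omega) (by omega) (by omega) | exact g7 (by omega) (by omega) (by omega) (by omega) | exact g8 (by omega) (by omega) (by omega) (by omega) | exact g9 (by omega) (by omega) (by omega) | exact g10 (by omega) (by omega) (by omega) (by omega)) ho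
    by_cases c3b : d = 4 * s + 4
    · exact fam2_half (p := 0) hu (by omega) h1 (by first | exact g1 (by omega) (by omega) (by omega) (by omega) | exact g2 (by omega) (by omega) (by omega) (by omega) | exact g3 (by omega) (by omega) (by omega) (by omega) | exact g4 (by omega) (by omega) (by omega) (by omega) | exact g5 (by omega) (by omega) (by omega) (by omega) | exact g6 (by omega) (by omega) (by omega) | exact g7 (by omega) (by omega) (by omega) (by omega) | exact g8 (by omega) (by omega) (by omega) (by omega) | exact g9 (by omega) (by omega) (by omega) | exact g10 (by omega) (by omega) (by omega) (by omega)) (by first | exact g1 (by omega) (by omega) (by omega) (by omega) | exact g2 (by omega) (by omega) (by omega) (by omega) | exact g3 (by omega) (by omega) (by omega) (by omega) | exact g4 (by omega) (by omega) (by omega) (by omega) | exact g5 (by omega) (by omega) (by omega) (by omega) | exact g6 (by omega) (by omega) (by omega) | exact g7 (by omega) (by omega) (by omega) (by omega) | exact g8 (by omega) (by omega) (by omega) (by omega) | exact g9 (by omega) (by omega) (by omega) | exact g10 (by omega) (by omega) (by omega) (by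 omega)) ho
    by_cases c3c : d = 4 * s + 5
    · exact fam2_extra (p := 6 * s + 10) hu (by first | exact g1 (by omega) (by omega) (by omega) (by omega) | exact g2 (by omega) (by omega) (by omega) (by omega) | exact g3 (by omega) (by omega) (by omega) (by omega) | exact g4 (by omega) (by omega) (by omega) (by omega) | exact g5 (by omega) (by omega) (by omega) (by omega) | exact g6 (by omega) (by omega) (by omega) | exact g7 (by omega) (by omega) (by omega) (by omega) | exact g8 (by omega) (by omega) (by omega) (by omega) | exact g9 (by omega) (by omega) (by omega) | exact g10 (by omega) (by omega) (by omega) (by omega)) ho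
    by_cases c3d : d = 4 * s + 6
    · exact fam2_extra (p := 10 * s + 15) hu (by first | exact g1 (by omega) (by omega) (by omega) (by omega) | exact g2 (by omega) (by omega) (by omega) (by omega) | exact g3 (by omega) (by omega) (by omega) (by omega) | exact g4 (by omega) (by omega) (by omega) (by omega) | exact g5 (by omega) (by omega) (by omega) (by omega) | exact g6 (by omega) (by omega) (by omega) | exact g7 (by omega) (by omega) (by omega) (by omega) | exact g8 (by omega) (by omega) (by omega) (by omega) | exact g9 (by omega) (by omega) (by omega) | exact g10 (by omega) (by omega) (by omega) (by omega)) ho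
    by_cases c3e : d = 4 * s + 7
    · exact fam2_extra (p := 2 * s + 2) hu (by first | exact g1 (by omega) (by omega) (by omega) (by omega) | exact g2 (by omega) (by omega) (by omega) (by omega) | exact g3 (by omega) (by omega) (by omega) (by omega) | exact g4 (by omega) (by omega) (by omega) (by omega) | exact g5 (by omega) (by omega) (by omega) (by omega) | exact g6 (by omega) (by omega) (by omega) | exact g7 (by omega) (by omega) (by omega) (by omega) | exact g8 (by omega) (by omega) (by omega) (by omega) | exact g9 (by omega) (by omega) (by omega) | exact g10 (by omega) (by omega) (by omega) (by omega)) ho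
    by_cases c4 : d ≤ 5 * s + 7
    · exact fam2_full (i := 5 * s + 7 - d) (p := 11 * s + 3 * (5 * s + 7 - d) + 17)
        (by omega) hu (by first | exact g1 (by omega) (by omega) (by omega) (by omega) | exact g2 (by omega) (by omega) (by omega) (by omega) | exact g3 (by omega) (by omega) (by omega) (by omega) | exact g4 (by omega) (by omega) (by omega) (by omega) | exact g5 (by omega) (by omega) (by omega) (by omega) | exact g6 (by omega) (by omega) (by omega) | exact g7 (by omega) (by omega) (by omega) (by omega) | exact g8 (by omega) (by omega) (by omega) (by omega) | exact g9 (by omega) (by omega) (by omega) | exact g10 (by omega) (by omega) (by omega) (by omega)) ho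
    by_cases c4a : d = 5 * s + 8
    · exact fam2_half (p := 4 * s + 4) hu (by omega) h1 (by first | exact g1 (by omega) (by omega) (by omega) (by omega) | exact g2 (by omega) (by omega) (by omega) (by omega) | exact g3 (by omega) (by omega) (by omega) (by omega) | exact g4 (by omega) (by omega) (by omega) (by omega) | exact g5 (by omega) (by omega) (by omega) (by omega) | exact g6 (by omega) (by omega) (by omega) | exact g7 (by omega) (by omega) (by omega) (by omega) | exact g8 (by omega) (by omega) (by omega) (by omega) | exact g9 (by omega) (by omega) (by omega) | exact g10 (by omega) (by omega) (by omega) (by omega)) (by first | exact g1 (by omega) (by omega) (by omega) (by omega) | exact g2 (by omega) (by omega) (by omega) (by omega) | exact g3 (by omega) (by omega) (by omega) (by omega) | exact g4 (by omega) (by omega) (by omega) (by omega) | exact g5 (by omega) (by omega) (by omega) (by omega) | exact g6 (by omega) (by omega) (by omega) | exact g7 (by omega) (by omega) (by omega) (by omega) | exact g8 (by omega) (by omega) (by omega) (by omega) | exact g9 (by omega) (by omega) (by omega) | exact g10 (by omega) (by omega) (by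 omega) (by omega)) ho
    by_cases c5 : d ≤ 6 * s + 8
    · exact fam2_full (i := d - 5 * s - 9) (p := 2 * s - 2 * (d - 5 * s - 9) + 1)
        (by omega) hu (by first | exact g1 (by omega) (by omega) (by omega) (by omega) | exact g2 (by omega) (by omega) (by omega) (by omega) | exact g3 (by omega) (by omega) (by omega) (by omega) | exact g4 (by omega) (by omega) (by omega) (by omega) | exact g5 (by omega) (by omega) (by omega) (by omega) | exact g6 (by omega) (by omega) (by omega) | exact g7 (by omega) (by omega) (by omega) (by omega) | exact g8 (by omega) (by omega) (by omega) (by omega) | exact g9 (by omega) (by omega) (by omega) | exact g10 (by omega) (by omega) (by omega) (by omega)) ho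
    by_cases c6 : d = 6 * s + 9
    · exact fam2_extra (p := 0) hu (by first | exact g1 (by omega) (by omega) (by omega) (by omega) | exact g2 (by omega) (by omega) (by omega) (by omega) | exact g3 (by omega) (by omega) (by omega) (by omega) | exact g4 (by omega) (by omega) (by omega) (by omega) | exact g5 (by omega) (by omega) (by omega) (by omega) | exact g6 (by omega) (by omega) (by omega) | exact g7 (by omega) (by omega) (by omega) (by omega) | exact g8 (by omega) (by omega) (by omega) (by omega) | exact g9 (by omega) (by omega) (by omega) | exact g10 (by omega) (by omega) (by omega) (by omega)) ho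
    by_cases c6a : d = 6 * s + 10
    · exact fam2_extra (p := 0) hu (by first | exact g1 (by omega) (by omega) (by omega) (by omega) | exact g2 (by omega) (by omega) (by omega) (by omega) | exact g3 (by omega) (by omega) (by omega) (by omega) | exact g4 (by omega) (by omega) (by omega) (by omega) | exact g5 (by omega) (by omega) (by omega) (by omega) | exact g6 (by omega) (by omega) (by omega) | exact g7 (by omega) (by omega) (by omega) (by omega) | exact g8 (by omega) (by omega) (by omega) (by omega) | exact g9 (by omega) (by omega) (by omega) | exact g10 (by omega) (by omega) (by omega) (by omega)) ho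
    by_cases c7 : d ≤ 7 * s + 10
    · exact fam2_full (i := 7 * s + 10 - d) (p := 0) (by omega) hu (by first | exact g1 (by omega) (by omega) (by omega) (by omega) | exact g2 (by omega) (by omega) (by omega) (by omega) | exact g3 (by omega) (by omega) (by omega) (by omega) | exact g4 (by omega) (by omega) (by omega) (by omega) | exact g5 (by omega) (by omega) (by omega) (by omega) | exact g6 (by omega) (by omega) (by omega) | exact g7 (by omega) (by omega) (by omega) (by omega) | exact g8 (by omega) (by omega) (by omega) (by omega) | exact g9 (by omega) (by omega) (by omega) | exact g10 (by omega) (by omega) (by omega) (by omega)) ho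
    by_cases c8 : d ≤ 8 * s + 10
    · exact fam2_full (i := d - 7 * s - 11) (p := 9 * s + (d - 7 * s - 11) + 13)
        (by omega) hu (by first | exact g1 (by omega) (by omega) (by omega) (by omega) | exact g2 (by omega) (by omega) (by omega) (by omega) | exact g3 (by omega) (by omega) (by omega) (by omega) | exact g4 (by omega) (by omega) (by omega) (by omega) | exact g5 (by omega) (by omega) (by omega) (by omega) | exact g6 (by omega) (by omega) (by omega) | exact g7 (by omega) (by omega) (by omega) (by omega) | exact g8 (by omega) (by omega) (by omega) (by omega) | exact g9 (by omega) (by omega) (by omega) | exact g10 (by omega) (by omega) (by omega) (by omega)) ho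
    by_cases c8a : d = 8 * s + 11
    · exact fam2_extra (p := 6 * s + 10) hu (by first | exact g1 (by omega) (by omega) (by omega) (by omega) | exact g2 (by omega) (by omega) (by omega) (by omega) | exact g3 (by omega) (by omega) (by omega) (by omega) | exact g4 (by omega) (by omega) (by omega) (by omega) | exact g5 (by omega) (by omega) (by omega) (by omega) | exact g6 (by omega) (by omega) (by omega) | exact g7 (by omega) (by omega) (by omega) (by omega) | exact g8 (by omega) (by omega) (by omega) (by omega) | exact g9 (by omega) (by omega) (by omega) | exact g10 (by omega) (by omega) (by omega) (by omega)) ho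
    by_cases c9 : d ≤ 9 * s + 11
    · exact fam2_full (i := 9 * s + 11 - d) (p := 9 * s + (9 * s + 11 - d) + 13)
        (by omega) hu (by first | exact g1 (by omega) (by omega) (by omega) (by omega) | exact g2 (by omega) (by omega) (by omega) (by omega) | exact g3 (by omega) (by omega) (by omega) (by omega) | exact g4 (by omega) (by omega) (by omega) (by omega) | exact g5 (by omega) (by omega) (by omega) (by omega) | exact g6 (by omega) (by omega) (by omega) | exact g7 (by omega) (by omega) (by omega) (by omega) | exact g8 (by omega) (by omega) (by omega) (by omega) | exact g9 (by omega) (by omega) (by omega) | exact g10 (by omega) (by omega) (by omega) (by omega)) ho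
    · exact fam2_half (p := 0) hu (by omega) h1 (by first | exact g1 (by omega) (by omega) (by omega) (by omega) | exact g2 (by omega) (by omega) (by omega) (by omega) | exact g3 (by omega) (by omega) (by omega) (by omega) | exact g4 (by omega) (by omega) (by omega) (by omega) | exact g5 (by omega) (by omega) (by omega) (by omega) | exact g6 (by omega) (by omega) (by omega) | exact g7 (by omega) (by omega) (by omega) (by omega) | exact g8 (by omega) (by omega) (by omega) (by omega) | exact g9 (by omega) (by omega) (by omega) | exact g10 (by omega) (by omega) (by omega) (by omega)) (by first | exact g1 (by omega) (by omega) (by omega) (by omega) | exact g2 (by omega) (by omega) (by omega) (by omega) | exact g3 (by omega) (by omega) (by omega) (by omega) | exact g4 (by omega) (by omega) (by omega) (by omega) | exact g5 (by omega) (by omega) (by omega) (by omega) | exact g6 (by omega) (by omega) (by omega) | exact g7 (by omega) (by omega) (by omega) (by omega) | exact g8 (by omega) (by omega) (by omega) (by omega) | exact g9 (by omega) (by omega) (by omega) | exact g10 (by omega) (by omega) (by omega) (by omega)) ho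
  · intro i hi v hv
    by_cases h : i < s
    · simp only [fam2, if_pos h]
      exact full_loc hv
    · by_cases h' : i = s
      · simp only [fam2, if_neg h, if_pos h']
        exact full_loc hv
      · simp only [fam2, if_neg h, if_neg h']
        refine ⟨{rot (18 * s + 24) 0 v - (if rot (18 * s + 24) 0 v < 9 * s + 12 then 0 else 9 * s + 12),
          rot (18 * s + 24) (4 * s + 4) v -
            (if rot (18 * s + 24) (4 * s + 4) v < 9 * s + 12 then 0 else 9 * s + 12)},
          card_le_two, ?_⟩
        intro t ht hmem
        simp only [hexV, mem_insert, mem_singleton] at hmem ⊢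
        unfold rot at hmem ⊢
        split_ifs at hmem <;> split_ifs <;> omega

end Pool.Agent.PageNum
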