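import Mathlib
import Pool.Agent.PageNum.Defs

/-!
# Lower bound: a `k`-local book embedding of `K_n` forces `n ≤ 3k`
-/

namespace Pool.Agent.PageNum

open Finset

/-- No two pairs of `P` cross. -/
def NC (P : Finset (ℕ × ℕ)) : Prop :=
  ∀ e ∈ P, ∀ e' ∈ P, ¬ (e.1 < e'.1 ∧ e'.1 < e.2 ∧ e.2 < e'.2)

theorem NC.mono {P Q : Finset (ℕ × ℕ)} (h : NC P) (hQ : Q ⊆ P) : NC Q :=
  fun e he e' he' => h e (hQ he) e' (hQ he')

/-- Endpoints of the pairs in `P`. -/
def verts (P : Finset (ℕ × ℕ)) : Finset ℕ := P.image Prod.fst ∪ P.image Prod.snd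

theorem mem_verts {P : Finset (ℕ × ℕ)} {v : ℕ} :
    v ∈ verts P ↔ ∃ e ∈ P, e.1 = v ∨ e.2 = v := by
  simp only [verts, mem_union, mem_image]
  constructor
  · rintro (⟨e, he, h⟩ | ⟨e, he, h⟩)
    · exact ⟨e, he, Or.inl h⟩
    · exact ⟨e, he, Or.inr h⟩
  · rintro ⟨e, he, h | h⟩
    · exact Or.inl ⟨e, he, h⟩
    · exact Or.inr ⟨e, he, h⟩

theorem verts_mono {P Q : Finset (ℕ × ℕ)} (h : Q ⊆ P) : verts Q ⊆ verts P := by
  intro v hv
  rw [mem_verts] at hv ⊢
  obtain ⟨e, he, h'⟩ := hv
  exact ⟨e, h he, h'⟩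

/-- linear weight -/
def lw (n : ℕ) (e : ℕ × ℕ) : ℕ := min n (3 * (e.2 - e.1))

theorem lw_le (n : ℕ) (e : ℕ × ℕ) : lw n e ≤ n := min_le_left _ _
theorem lw_le' (n : ℕ) (e : ℕ × ℕ) : lw n e ≤ 3 * (e.2 - e.1) := min_le_right _ _

theorem B_of_A {n a b : ℕ} (hab : a < b) {P : Finset (ℕ × ℕ)} (hNC : NC P)
    (hP : ∀ e ∈ P, a ≤ e.1 ∧ e.1 < e.2 ∧ e.2 ≤ b)
    (hA : ∀ Q : Finset (ℕ × ℕ), Q.Nonempty → NC Q → (a, b) ∉ Q →
      (∀ e ∈ Q, a ≤ e.1 ∧ e.1 < e.2 ∧ e.2 ≤ b) →
      ∑ e ∈ Q, lw n e + 3 * n ≤ n * (verts Q ∪ {a, b}).card + 3 * (b - a)) :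
    ∑ e ∈ P, lw n e + 2 * n ≤ n * (verts P ∪ {a, b}).card + 3 * (b - a) := by
  have hc2 : 2 ≤ (verts P ∪ {a, b}).card := by
    have : ({a, b} : Finset ℕ).card = 2 := card_pair (by omega)
    rw [← this]
    exact card_le_card subset_union_right
  have hsum : ∑ e ∈ P, lw n e ≤ ∑ e ∈ P.erase (a, b), lw n e + lw n (a, b) := by
    by_cases h : (a, b) ∈ P
    · rw [Finset.sum_erase_add _ _ h]
    · rw [erase_eq_of_notMem h]; omega
  by_cases hne : (P.erase (a, b)).Nonempty
  · have h1 := hA (P.erase (a, b)) hne (hNC.mono (erase_subset _ _)) (by simp)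
      (fun e he => hP e (mem_of_mem_erase he))
    have h2 : (verts (P.erase (a, b)) ∪ {a, b}).card ≤ (verts P ∪ {a, b}).card :=
      card_le_card (union_subset_union_left (verts_mono (erase_subset _ _)))
    have h3 := lw_le n (a, b)
    have h4 := Nat.mul_le_mul_left n h2
    omega
  · rw [not_nonempty_iff_eq_empty] at hne
    rw [hne, sum_empty] at hsum
    have h3 := lw_le' n (a, b)
    have h4 := Nat.mul_le_mul_left n hc2
    simp only at h3
    omega

theorem A_aux (n : ℕ) : ∀ g a b : ℕ, a < b → b - a ≤ g → ∀ P : Finset (ℕ × ℕ), P.Nonempty →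
    NC P → (a, b) ∉ P → (∀ e ∈ P, a ≤ e.1 ∧ e.1 < e.2 ∧ e.2 ≤ b) →
    ∑ e ∈ P, lw n e + 3 * n ≤ n * (verts P ∪ {a, b}).card + 3 * (b - a) := by
  intro g
  induction g with
  | zero => intro a b h1 h2; omega
  | succ g ih =>
    intro a b hab hg P hne hNC habP hP
    by_cases hex : ∃ e ∈ P, e.1 = a
    · -- take the longest edge at `a`
      have hS : (P.filter fun e => e.1 = a).Nonempty := by
        obtain ⟨e, he, h⟩ := hex
        exact ⟨e, mem_filter.2 ⟨he, h⟩⟩
      obtain ⟨e0, he0, hmax⟩ := exists_max_image _ (fun e : ℕ × ℕ => e.2) hS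
      rw [mem_filter] at he0
      obtain ⟨he0P, he0a⟩ := he0
      obtain ⟨_, h01, h02⟩ := hP e0 he0P
      have hcb : e0.2 < b := by
        rcases lt_or_eq_of_le h02 with h | h
        · exact h
        · exfalso
          apply habP
          have : e0 = (a, b) := Prod.ext he0a h
          rwa [this] at he0P
      set c := e0.2 with hc
      have hac : a < c := by omega
      have hsplit : ∀ e ∈ P, e.2 ≤ c ∨ c ≤ e.1 := by
        intro e he
        by_contra hcon
        push Not at hcon
        obtain ⟨h1, h2⟩ := hcon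
        obtain ⟨h3, h4, h5⟩ := hP e he
        rcases Nat.eq_or_lt_of_le h3 with h | h
        · have := hmax e (mem_filter.2 ⟨he, h.symm⟩)
          omega
        · refine hNC e0 he0P e he ⟨?_, ?_, ?_⟩
          · omega
          · exact h2
          · exact h1
      set P1 := P.filter fun e => e.2 ≤ c with hP1
      set P2 := P.filter fun e => ¬ e.2 ≤ c with hP2
      have hs : ∑ e ∈ P, lw n e = ∑ e ∈ P1, lw n e + ∑ e ∈ P2, lw n e :=
        (sum_filter_add_sum_filter_not P _ _).symm
      have m1 : ∀ e ∈ P1, a ≤ e.1 ∧ e.1 < e.2 ∧ e.2 ≤ c := by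
        intro e he
        rw [hP1, mem_filter] at he
        exact ⟨(hP e he.1).1, (hP e he.1).2.1, he.2⟩
      have m2 : ∀ e ∈ P2, c ≤ e.1 ∧ e.1 < e.2 ∧ e.2 ≤ b := by
        intro e he
        rw [hP2, mem_filter] at he
        refine ⟨?_, (hP e he.1).2.1, (hP e he.1).2.2⟩
        rcases hsplit e he.1 with h | h
        · exact absurd h he.2
        · exact h
      have b1 := B_of_A (n := n) hac (hNC.mono (filter_subset _ P) : NC P1) m1
        (fun Q q1 q2 q3 q4 => ih a c hac (by omega) Q q1 q2 q3 q4)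
      have b2 := B_of_A (n := n) hcb (hNC.mono (filter_subset _ P) : NC P2) m2
        (fun Q q1 q2 q3 q4 => ih c b hcb (by omega) Q q1 q2 q3 q4)
      have hcard : (verts P1 ∪ {a, c}).card + (verts P2 ∪ {c, b}).card ≤
          (verts P ∪ {a, b}).card + 1 := by
        rw [← card_union_add_card_inter]
        refine add_le_add (card_le_card ?_) ?_
        · intro v hv
          have hcP : c ∈ verts P := mem_verts.2 ⟨e0, he0P, Or.inr rfl⟩
          simp only [mem_union, mem_insert, mem_singleton] at hv ⊢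
          rcases hv with (h | h | h) | (h | h | h)
          · exact Or.inl (verts_mono (filter_subset _ _) h)
          · exact Or.inr (Or.inl h)
          · left; rw [h]; exact hcP
          · exact Or.inl (verts_mono (filter_subset _ _) h)
          · left; rw [h]; exact hcP
          · exact Or.inr (Or.inr h)
        · rw [card_le_one_iff_subset_singleton]
          refine ⟨c, ?_⟩
          intro v hv
          rw [mem_inter] at hv
          obtain ⟨hv1, hv2⟩ := hv
          have l1 : v ≤ c := by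
            simp only [mem_union, mem_insert, mem_singleton] at hv1
            rcases hv1 with h | h | h
            · rw [mem_verts] at h
              obtain ⟨e, he, h'⟩ := h
              have := m1 e he
              omega
            · omega
            · omega
          have l2 : c ≤ v := by
            simp only [mem_union, mem_insert, mem_singleton] at hv2
            rcases hv2 with h | h | h
            · rw [mem_verts] at h
              obtain ⟨e, he, h'⟩ := h
              have := m2 e he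
              omega
            · omega
            · omega
          rw [mem_singleton]
          omega
      have hmul := Nat.mul_le_mul_left n hcard
      rw [mul_add, mul_add, mul_one] at hmul
      rw [hs]
      omega
    · push Not at hex
      obtain ⟨e0, he0P, hmin⟩ := exists_min_image P (fun e : ℕ × ℕ => e.1) hne
      set a' := e0.1 with ha'
      obtain ⟨h1, h2, h3⟩ := hP e0 he0P
      have haa : a < a' := lt_of_le_of_ne h1 (fun h => hex e0 he0P h.symm)
      have hab' : a' < b := by omega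
      have m : ∀ e ∈ P, a' ≤ e.1 ∧ e.1 < e.2 ∧ e.2 ≤ b := fun e he =>
        ⟨hmin e he, (hP e he).2.1, (hP e he).2.2⟩
      have b1 := B_of_A (n := n) hab' hNC m
        (fun Q q1 q2 q3 q4 => ih a' b hab' (by omega) Q q1 q2 q3 q4)
      have hcard : (verts P ∪ {a', b}).card + 1 ≤ (verts P ∪ {a, b}).card := by
        have hna : a ∉ verts P ∪ {a', b} := by
          simp only [mem_union, mem_insert, mem_singleton, not_or]
          refine ⟨?_, by omega, by omega⟩
          rw [mem_verts]
          rintro ⟨e, he, h⟩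
          have := m e he
          omega
        rw [← card_insert_of_notMem hna]
        refine card_le_card ?_
        intro v hv
        have hcP : a' ∈ verts P := mem_verts.2 ⟨e0, he0P, Or.inl rfl⟩
        simp only [mem_union, mem_insert, mem_singleton] at hv ⊢
        rcases hv with h | h | h | h
        · exact Or.inr (Or.inl h)
        · exact Or.inl h
        · left; rw [h]; exact hcP
        · exact Or.inr (Or.inr h)
      have hmul := Nat.mul_le_mul_left n hcard
      rw [mul_add, mul_one] at hmul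
      omega

/-- circular weight -/
def cw (n l : ℕ) : ℕ := min (min n (3 * l)) (3 * (n - l))

/-- The weight inequality for one page. -/
theorem page_ineq {n : ℕ} {P : Finset (ℕ × ℕ)} (hne : P.Nonempty) (hNC : NC P)
    (hP : ∀ e ∈ P, e.1 < e.2 ∧ e.2 < n) :
    ∑ e ∈ P, cw n (e.2 - e.1) ≤ n * (verts P).card := by
  obtain ⟨e0, he0, hmin⟩ := exists_min_image P (fun e : ℕ × ℕ => e.1) hne
  obtain ⟨e1, he1, hmax⟩ := exists_max_image P (fun e : ℕ × ℕ => e.2) hne
  set a := e0.1 with ha
  set b := e1.2 with hb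
  have hab : a < b := by
    have h1 := hP e0 he0
    have h2 := hmax e0 he0
    omega
  have hbn : b < n := (hP e1 he1).2
  have hV : verts P ∪ {a, b} = verts P := by
    apply union_eq_left.2
    intro v hv
    simp only [mem_insert, mem_singleton] at hv
    rcases hv with rfl | rfl
    · exact mem_verts.2 ⟨e0, he0, Or.inl rfl⟩
    · exact mem_verts.2 ⟨e1, he1, Or.inr rfl⟩
  have hcl : ∀ e : ℕ × ℕ, cw n (e.2 - e.1) ≤ lw n e := fun e => min_le_left _ _
  have m : ∀ e ∈ P, a ≤ e.1 ∧ e.1 < e.2 ∧ e.2 ≤ b := fun e he =>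
    ⟨hmin e he, (hP e he).1, hmax e he⟩
  by_cases habP : (a, b) ∈ P
  · rw [← Finset.sum_erase_add _ _ habP]
    have hw : cw n (b - a) ≤ 3 * (n - (b - a)) := min_le_right _ _
    have hw' : cw n (b - a) ≤ n := (min_le_left _ _).trans (min_le_left _ _)
    by_cases hne' : (P.erase (a, b)).Nonempty
    · have h1 := A_aux n (b - a) a b hab le_rfl (P.erase (a, b)) hne'
        (hNC.mono (erase_subset _ _)) (by simp) (fun e he => m e (mem_of_mem_erase he))
      have h2 : (verts (P.erase (a, b)) ∪ {a, b}).card ≤ (verts P).card := by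
        rw [← hV]
        exact card_le_card (union_subset_union_left (verts_mono (erase_subset _ _)))
      have h3 : ∑ e ∈ P.erase (a, b), cw n (e.2 - e.1) ≤ ∑ e ∈ P.erase (a, b), lw n e :=
        sum_le_sum fun e _ => hcl e
      have h4 := Nat.mul_le_mul_left n h2
      change _ + cw n (b - a) ≤ _
      omega
    · rw [not_nonempty_iff_eq_empty] at hne'
      rw [hne', sum_empty, zero_add]
      change cw n (b - a) ≤ _
      have : 1 ≤ (verts P).card := card_pos.2 ⟨a, mem_verts.2 ⟨e0, he0, Or.inl rfl⟩⟩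
      have h4 := Nat.mul_le_mul_left n this
      omega
  · have h1 := A_aux n (b - a) a b hab le_rfl P hne hNC habP m
    rw [hV] at h1
    have h3 : ∑ e ∈ P, cw n (e.2 - e.1) ≤ ∑ e ∈ P, lw n e := sum_le_sum fun e _ => hcl e
    omega

/-- `S n = ∑_{l < n} (n - 3 l)^+`. -/
theorem S_bound : ∀ n : ℕ, 6 * ∑ l ∈ range n, (n - 3 * l) ≤ (n + 1) * (n + 2)
  | 0 => by simp
  | 1 => by simp
  | 2 => by decide
  | (n + 3) => by
    have ih := S_bound n
    have h1 : ∑ l ∈ range (n + 3), (n + 3 - 3 * l) =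
        (n + 3) + ∑ l ∈ range (n + 2), (n - 3 * l) := by
      rw [sum_range_succ']
      rw [add_comm]
      congr 1
      refine sum_congr rfl fun l _ => ?_
      omega
    have h2 : ∑ l ∈ range (n + 2), (n - 3 * l) = ∑ l ∈ range n, (n - 3 * l) := by
      rw [sum_range_succ, sum_range_succ]
      omega
    rw [h1, h2]
    nlinarith

theorem cw_eq {n l : ℕ} (h : l ≤ n) : cw n l + ((n - 3 * l) + (n - 3 * (n - l))) = n := by
  unfold cw
  omega

theorem W_bound (n : ℕ) (hn : 1 ≤ n) : 2 * n * n ≤ 3 * ∑ l ∈ range n, cw n l + 2 := by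
  have h1 : ∑ l ∈ range n, cw n l + (∑ l ∈ range n, (n - 3 * l) +
      ∑ l ∈ range n, (n - 3 * (n - l))) = n * n := by
    rw [← sum_add_distrib, ← sum_add_distrib]
    rw [sum_congr rfl (fun l hl => cw_eq (n := n) (le_of_lt (mem_range.1 hl)))]
    simp
  have h2 : ∑ l ∈ range n, (n - 3 * (n - l)) + n = ∑ l ∈ range n, (n - 3 * l) := by
    have h3 : ∑ l ∈ range n, (n - 3 * (n - l)) = ∑ l ∈ range n, (n - 3 * (l + 1)) := by
      rw [← sum_range_reflect (fun l => n - 3 * (l + 1)) n]
      refine sum_congr rfl fun l hl => ?_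
      rw [mem_range] at hl
      congr 2
      omega
    rw [h3]
    have h4 : ∑ l ∈ range (n + 1), (n - 3 * l) = ∑ l ∈ range n, (n - 3 * (l + 1)) + n := by
      rw [sum_range_succ']
      simp
    rw [← h4, sum_range_succ]
    omega
  have h5 := S_bound n
  nlinarith

theorem cw_symm {n l : ℕ} (h : l ≤ n) : cw n (n - l) = cw n l := by
  unfold cw
  omega

theorem cw_zero (n : ℕ) : cw n 0 = 0 := by simp [cw]

/-- All pairs `a < b < n`. -/
def allPairs (n : ℕ) : Finset (ℕ × ℕ) := (range n ×ˢ range n).filter fun e => e.1 < e.2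

theorem sum_allPairs (n : ℕ) : 2 * ∑ e ∈ allPairs n, cw n (e.2 - e.1) =
    n * ∑ l ∈ range n, cw n l := by
  have h1 : ∑ e ∈ allPairs n, cw n (e.2 - e.1) =
      ∑ b ∈ range n, ∑ l ∈ range (b + 1), cw n l := by
    unfold allPairs
    rw [sum_filter, sum_product_right]
    refine sum_congr rfl fun b hb => ?_
    rw [mem_range] at hb
    rw [← sum_filter]
    have h2 : (range n).filter (fun a => a < b) = range b := by
      ext a; simp only [mem_filter, mem_range]; omega
    simp only
    rw [h2]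
    rw [sum_range_succ' , cw_zero, add_zero]
    rw [← sum_range_reflect (fun l => cw n (l + 1)) b]
    refine sum_congr rfl fun a ha => ?_
    rw [mem_range] at ha
    congr 1
    omega
  have h3 : ∀ b ∈ range n, ∑ l ∈ range (b + 1), cw n l +
      ∑ l ∈ range (n - 1 - b + 1), cw n l = ∑ l ∈ range n, cw n l := by
    intro b hb
    rw [mem_range] at hb
    have h4 : ∑ l ∈ range (n + 1), cw n l = ∑ l ∈ range n, cw n l := by
      rw [sum_range_succ]
      have : cw n n = 0 := by simp [cw]
      rw [this, add_zero]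
    rw [← h4]
    have h6 : n - 1 - b + 1 = n - b := by omega
    have h7 : ∑ l ∈ range (n - b), cw n l = ∑ l ∈ range (n - b), cw n (b + 1 + l) := by
      rw [← sum_range_reflect (fun l => cw n l) (n - b)]
      refine Finset.sum_congr rfl fun l hl => ?_
      rw [mem_range] at hl
      rw [← cw_symm (n := n) (l := b + 1 + l) (by omega)]
      congr 1
      omega
    have h8 : ∑ l ∈ range (n + 1), cw n l =
        ∑ l ∈ range (b + 1), cw n l + ∑ l ∈ range (n - b), cw n (b + 1 + l) := by
      have h5 : n + 1 = (b + 1) + (n - b) := by omega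
      rw [h5, Finset.sum_range_add]
    rw [h6, h7, h8]
  rw [h1, two_mul]
  nth_rewrite 2 [← sum_range_reflect]
  rw [← sum_add_distrib, sum_congr rfl h3]
  simp

/-- Combinatorial core of the lower bound. -/
theorem core {n k : ℕ} (hn : 2 ≤ n) (f : ℕ × ℕ → ℕ)
    (hNC : ∀ p, NC ((allPairs n).filter fun e => f e = p))
    (hk : ∀ v < n, (((allPairs n).filter fun e => e.1 = v ∨ e.2 = v).image f).card ≤ k) :
    n ≤ 3 * k := by
  set I := (allPairs n).image f with hI
  have hmem : ∀ e ∈ allPairs n, e.1 < e.2 ∧ e.2 < n := by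
    intro e he
    simp only [allPairs, mem_filter, mem_product, mem_range] at he
    exact ⟨he.2, he.1.2⟩
  have h1 : ∑ e ∈ allPairs n, cw n (e.2 - e.1) ≤
      ∑ p ∈ I, n * (verts ((allPairs n).filter fun e => f e = p)).card := by
    rw [← sum_fiberwise_of_maps_to (s := allPairs n) (t := I) (g := f)
      (fun e he => mem_image_of_mem f he)]
    refine sum_le_sum fun p hp => ?_
    rw [hI, mem_image] at hp
    obtain ⟨e, he, hep⟩ := hp
    refine page_ineq ⟨e, mem_filter.2 ⟨he, hep⟩⟩ (hNC p) fun e he => hmem e (mem_filter.1 he).1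
  have h2 : ∑ p ∈ I, (verts ((allPairs n).filter fun e => f e = p)).card ≤ n * k := by
    have h3 : ∀ p ∈ I, (verts ((allPairs n).filter fun e => f e = p)).card =
        ∑ v ∈ range n, if v ∈ verts ((allPairs n).filter fun e => f e = p) then 1 else 0 := by
      intro p _
      rw [← sum_filter, sum_const, smul_eq_mul, mul_one]
      congr 1
      ext v
      rw [mem_filter, mem_range]
      constructor
      · intro hv
        refine ⟨?_, hv⟩
        rw [mem_verts] at hv
        obtain ⟨e, he, h⟩ := hv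
        have := hmem e (mem_filter.1 he).1
        omega
      · exact fun h => h.2
    rw [sum_congr rfl h3, sum_comm]
    have h4 : ∀ v ∈ range n, (∑ p ∈ I,
        if v ∈ verts ((allPairs n).filter fun e => f e = p) then 1 else 0) ≤ k := by
      intro v hv
      rw [← sum_filter, sum_const, smul_eq_mul, mul_one]
      refine le_trans (card_le_card ?_) (hk v (mem_range.1 hv))
      intro p hp
      rw [mem_filter, mem_verts] at hp
      obtain ⟨_, e, he, h⟩ := hp
      rw [mem_filter] at he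
      exact mem_image.2 ⟨e, mem_filter.2 ⟨he.1, h⟩, he.2⟩
    calc _ ≤ ∑ v ∈ range n, k := sum_le_sum h4
      _ = n * k := by simp
  rw [← mul_sum] at h1
  have h5 := sum_allPairs n
  have h6 := W_bound n (by omega)
  have h7 : ∑ e ∈ allPairs n, cw n (e.2 - e.1) ≤ n * (n * k) :=
    h1.trans (Nat.mul_le_mul_left n h2)
  -- `n (2 n^2 - 2) ≤ 3 n W = 6 Σ ≤ 6 n^2 k`
  have h8 : n * (2 * n * n) ≤ n * (6 * n * k + 2) := by
    calc n * (2 * n * n) ≤ n * (3 * ∑ l ∈ range n, cw n l + 2) := Nat.mul_le_mul_left n h6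
      _ = 3 * (n * ∑ l ∈ range n, cw n l) + 2 * n := by ring
      _ = 3 * (2 * ∑ e ∈ allPairs n, cw n (e.2 - e.1)) + 2 * n := by rw [h5]
      _ ≤ 3 * (2 * (n * (n * k))) + 2 * n := by
          have := Nat.mul_le_mul_left 6 h7
          nlinarith
      _ = n * (6 * n * k + 2) := by ring
  have h9 : 2 * n * n ≤ 6 * n * k + 2 := Nat.le_of_mul_le_mul_left h8 (by omega)
  by_contra hcon
  push Not at hcon
  have h10 : 3 * k + 1 ≤ n := hcon
  have h11 : 2 * n * (3 * k + 1) ≤ 2 * n * n := Nat.mul_le_mul_left _ h10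
  nlinarith

/-- A `k`-local book embedding of a complete graph on `n ≥ 2` vertices has `n ≤ 3k`. -/
theorem LocalBook.le {V : Type*} [Fintype V] {n k : ℕ} (hcard : Fintype.card V = n)
    (hn : 2 ≤ n) (h : LocalBook (⊤ : SimpleGraph V) k) : n ≤ 3 * k := by
  classical
  obtain ⟨o, page, h1, h2⟩ := h
  let e : Fin n ≃o V := @monoEquivOfFin V _ o n hcard
  have he : ∀ i j : Fin n, i < j → o.lt (e i) (e j) := fun i j hij =>
    (@OrderIso.lt_iff_lt (Fin n) V _ o.toPreorder e i j).2 hij
  let f : ℕ × ℕ → ℕ := fun p =>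
    if h : p.1 < n ∧ p.2 < n then page s(e ⟨p.1, h.1⟩, e ⟨p.2, h.2⟩) else 0
  have hmem : ∀ e ∈ allPairs n, e.1 < e.2 ∧ e.2 < n := by
    intro e he
    simp only [allPairs, mem_filter, mem_product, mem_range] at he
    exact ⟨he.2, he.1.2⟩
  have hf : ∀ p : ℕ × ℕ, ∀ h1 : p.1 < n, ∀ h2 : p.2 < n,
      f p = page s(e ⟨p.1, h1⟩, e ⟨p.2, h2⟩) := by
    intro p h1 h2
    simp only [f]
    rw [dif_pos ⟨h1, h2⟩]
  have hadj : ∀ i j : Fin n, i ≠ j → (⊤ : SimpleGraph V).Adj (e i) (e j) := by
    intro i j hij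
    rw [SimpleGraph.top_adj]
    exact fun h => hij (e.injective h)
  refine core hn f ?_ ?_
  · intro p e1 he1 e2 he2 ⟨c1, c2, c3⟩
    rw [mem_filter] at he1 he2
    obtain ⟨a1, b1⟩ := hmem e1 he1.1
    obtain ⟨a2, b2⟩ := hmem e2 he2.1
    have h3 : f e1 = f e2 := he1.2.trans he2.2.symm
    rw [hf e1 (by omega) b1, hf e2 (by omega) b2] at h3
    refine h1 _ _ _ _ (hadj _ _ ?_) (hadj _ _ ?_) h3 ⟨he _ _ ?_, he _ _ ?_, he _ _ ?_⟩
    · intro h; rw [Fin.mk.injEq] at h; omega
    · intro h; rw [Fin.mk.injEq] at h; omega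
    · exact Fin.mk_lt_mk.2 c1
    · exact Fin.mk_lt_mk.2 c2
    · exact Fin.mk_lt_mk.2 c3
  · intro v hv
    have h3 := h2 (e ⟨v, hv⟩)
    have h4 : ((((allPairs n).filter fun e => e.1 = v ∨ e.2 = v).image f : Finset ℕ) : Set ℕ) ⊆
        {p | ∃ w, (⊤ : SimpleGraph V).Adj (e ⟨v, hv⟩) w ∧ page s(e ⟨v, hv⟩, w) = p} := by
      intro p hp
      rw [mem_coe, mem_image] at hp
      obtain ⟨q, hq, hqp⟩ := hp
      rw [mem_filter] at hq
      obtain ⟨q1, q2⟩ := hmem q hq.1
      rw [hf q (by omega) q2] at hqp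
      rcases hq.2 with h | h
      · subst h
        refine ⟨e ⟨q.2, q2⟩, hadj _ _ ?_, hqp⟩
        intro h; rw [Fin.mk.injEq] at h; omega
      · subst h
        refine ⟨e ⟨q.1, by omega⟩, hadj _ _ ?_, ?_⟩
        · intro h; rw [Fin.mk.injEq] at h; omega
        · rw [Sym2.eq_swap]; exact hqp
    have h5 := (Set.encard_le_encard h4).trans h3
    rw [Set.encard_coe_eq_coe_finsetCard] at h5
    exact_mod_cast h5

end Pool.Agent.PageNum
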