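import Mathlib
import Pool.Agent.PageNum.Cyc

/-!
# `K_6` is `2`-local, and the summary for `k ≢ 0 (mod 3)`
-/

namespace Pool.Agent.PageNum

open Finset

/-- The three rotations of the quadrilateral `0, 1, 3, 4`. -/
def fam6 : Fam 6 1 where
  x _ := 0
  a _ := 1
  c _ := 3
  e _ := 3
  g _ := 4
  τ _ := 3
  hx i hi := by omega
  ha i hi := by omega
  hc i hi := by omega
  he i hi := by omega
  hg i hi := by omega
  hτ i hi := by omega

instance {x a c e g p q : ℕ} : Decidable (Hex x a c e g p q) := by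
  unfold Hex; infer_instance

theorem cov6 : ∀ b < 6, ∀ a < b, ∃ t < 3,
    Hex 0 1 3 3 4 (rot 6 t a) (rot 6 t b) ∨ Hex 0 1 3 3 4 (rot 6 t b) (rot 6 t a) := by
  decide

theorem loc6 : ∀ v < 6, ((range 3).filter fun t => rot 6 t v ∈ hexV 0 1 3 3 4).card ≤ 2 := by
  decide

theorem localBook6 : LocalBook (⊤ : SimpleGraph (Fin 6)) 2 := by
  refine fam6.localBook (fun _ => 2) (by simp) ?_ ?_
  · intro a b hab hb
    obtain ⟨t, ht, h⟩ := cov6 b hb a hab
    exact ⟨(0, t), by norm_num, ht, h⟩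
  · intro i hi v hv
    refine ⟨(range 3).filter fun t => rot 6 t v ∈ hexV 0 1 3 3 4, loc6 v hv, ?_⟩
    intro t ht h
    exact mem_filter.2 ⟨mem_range.2 ht, h⟩

/-- For `k` not divisible by `3`, the complete graph on `3k` vertices is `k`-local. -/
theorem localBook_of_not_dvd {k : ℕ} (hk : k % 3 ≠ 0) :
    LocalBook (⊤ : SimpleGraph (Fin (3 * k))) k := by
  have h6 : k % 6 = 1 ∨ k % 6 = 4 ∨ k % 6 = 5 ∨ k = 2 ∨ (k % 6 = 2 ∧ 8 ≤ k) := by omega
  rcases h6 with h | h | h | h | ⟨h, h8⟩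
  · obtain ⟨s, rfl⟩ : ∃ s, k = 6 * s + 1 := ⟨k / 6, by omega⟩
    have := localBook1 s
    have e : 18 * s + 3 = 3 * (6 * s + 1) := by ring
    rwa [e] at this
  · obtain ⟨s, rfl⟩ : ∃ s, k = 6 * s + 4 := ⟨k / 6, by omega⟩
    have := localBook4 s
    have e : 18 * s + 12 = 3 * (6 * s + 4) := by ring
    rwa [e] at this
  · obtain ⟨s, rfl⟩ : ∃ s, k = 6 * s + 5 := ⟨k / 6, by omega⟩
    have := localBook5 s
    have e : 18 * s + 15 = 3 * (6 * s + 5) := by ring
    rwa [e] at this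
  · subst h
    exact localBook6
  · obtain ⟨s, rfl⟩ : ∃ s, k = 6 * s + 8 := ⟨k / 6 - 1, by omega⟩
    have := localBook2 s
    have e : 18 * s + 24 = 3 * (6 * s + 8) := by ring
    rwa [e] at this

/-- `K_n` is `k`-local if `n ≤ 3k` and `3 ∤ k`. -/
theorem localBook_le {n k : ℕ} (hk : k % 3 ≠ 0) (hn : n ≤ 3 * k) :
    LocalBook (⊤ : SimpleGraph (Fin n)) k :=
  (localBook_of_not_dvd hk).mono hn le_rfl

end Pool.Agent.PageNum
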