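import Mathlib
import Pool.Agent.PageNum.Upper

/-!
# Union embeddings: gluing lemmas
-/

namespace Pool.Agent.PageNum

open Finset

/-- Union embedding of a graph on `Fin n` with `k` pages for the standard order. -/
def UB (n : ℕ) (G : SimpleGraph (Fin n)) (k : ℕ) : Prop :=
  ∃ page : Sym2 (Fin n) → ℕ, (∀ e ∈ G.edgeSet, page e < k) ∧
    ∀ u v x y, G.Adj u v → G.Adj x y → page s(u, v) = page s(x, y) →
      (pageGraph G page (page s(u, v))).Reachable u x → ¬ (u < x ∧ x < v ∧ v < y)

theorem UB.unionBook {n k : ℕ} {G : SimpleGraph (Fin n)} (h : UB n G k) : UnionBook G k := by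
  obtain ⟨page, h1, h2⟩ := h
  exact ⟨inferInstance, page, h1, h2⟩

/-- An invariant of adjacency is an invariant of reachability. -/
theorem reach_inv {V : Type*} {G : SimpleGraph V} {P : V → Prop}
    (h : ∀ a b, G.Adj a b → P a → P b) {u x : V} (hr : G.Reachable u x) (hu : P u) : P x := by
  obtain ⟨w⟩ := hr
  induction w with
  | nil => exact hu
  | cons hadj _ ih => exact ih (h _ _ hadj hu)

theorem UB.mono_right {n k l : ℕ} {G : SimpleGraph (Fin n)} (h : UB n G k) (hkl : k ≤ l) :
    UB n G l := by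
  obtain ⟨page, h1, h2⟩ := h
  exact ⟨page, fun e he => (h1 e he).trans_le hkl, h2⟩

theorem UB.anti {n k : ℕ} {G H : SimpleGraph (Fin n)} (hGH : G ≤ H) (h : UB n H k) :
    UB n G k := by
  obtain ⟨page, h1, h2⟩ := h
  refine ⟨page, fun e he => h1 e (SimpleGraph.edgeSet_mono hGH he), ?_⟩
  intro u v x y huv hxy hp hr
  refine h2 u v x y (hGH huv) (hGH hxy) hp (hr.mono ?_)
  intro a b hab
  exact ⟨hGH hab.1, hab.2⟩

theorem UB.sup {n k l : ℕ} {G H : SimpleGraph (Fin n)} (hG : UB n G k) (hH : UB n H l) :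
    UB n (G ⊔ H) (k + l) := by
  classical
  obtain ⟨pG, g1, g2⟩ := hG
  obtain ⟨pH, h1, h2⟩ := hH
  let pg : Sym2 (Fin n) → ℕ := fun e => if e ∈ G.edgeSet then pG e else k + pH e
  have hin : ∀ e ∈ G.edgeSet, pg e = pG e := fun e he => if_pos he
  have hout : ∀ e, e ∉ G.edgeSet → pg e = k + pH e := fun e he => if_neg he
  have hadj : ∀ u v, (G ⊔ H).Adj u v → s(u, v) ∉ G.edgeSet → H.Adj u v := by
    intro u v h hn
    rcases h with h | h
    · exact absurd h hn
    · exact h
  refine ⟨pg, ?_, ?_⟩
  · intro e he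
    by_cases hG : e ∈ G.edgeSet
    · rw [hin e hG]
      have := g1 e hG
      omega
    · rw [hout e hG]
      have : e ∈ H.edgeSet := by
        rw [SimpleGraph.edgeSet_sup] at he
        rcases he with h | h
        · exact absurd h hG
        · exact h
      have := h1 e this
      omega
  · intro u v x y huv hxy hp hr
    by_cases hu : s(u, v) ∈ G.edgeSet
    · have hpu := hin _ hu
      have hlt := g1 _ hu
      have hx : s(x, y) ∈ G.edgeSet := by
        by_contra hx
        have := hout _ hx
        omega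
      have hpx := hin _ hx
      refine g2 u v x y hu hx (by rw [← hpu, ← hpx]; exact hp) (hr.mono ?_)
      intro a b hab
      obtain ⟨q1, q2⟩ := hab
      have hab' : s(a, b) ∈ G.edgeSet := by
        by_contra hx
        have := hout _ hx
        omega
      refine ⟨hab', ?_⟩
      rw [← hin _ hab', q2, hpu]
    · have hpu := hout _ hu
      have hu' := hadj _ _ huv hu
      have hx : s(x, y) ∉ G.edgeSet := by
        intro hx
        have h3 := hin _ hx
        have h4 := g1 _ hx
        omega
      have hpx := hout _ hx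
      have hx' := hadj _ _ hxy hx
      refine h2 u v x y hu' hx' (by omega) (hr.mono ?_)
      intro a b hab
      obtain ⟨q1, q2⟩ := hab
      have hab' : s(a, b) ∉ G.edgeSet := by
        intro hx
        have h3 := hin _ hx
        have h4 := g1 _ hx
        omega
      refine ⟨hadj _ _ q1 hab', ?_⟩
      have := hout _ hab'
      omega

/-- Restricting to fewer vertices. -/
theorem UB.restrict {m n k : ℕ} (hmn : m ≤ n) (h : UB n ⊤ k) : UB m ⊤ k := by
  obtain ⟨page, h1, h2⟩ := h
  let φ : Fin m → Fin n := Fin.castLE hmn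
  have hφ : Function.Injective φ := Fin.castLE_injective hmn
  have hadj : ∀ u v : Fin m, (⊤ : SimpleGraph (Fin m)).Adj u v →
      (⊤ : SimpleGraph (Fin n)).Adj (φ u) (φ v) := by
    intro u v huv
    rw [SimpleGraph.top_adj] at huv ⊢
    exact fun h => huv (hφ h)
  refine ⟨fun e => page (e.map φ), ?_, ?_⟩
  · intro e
    induction e with
    | _ a b =>
      intro he
      exact h1 s(φ a, φ b) (hadj a b he)
  · intro u v x y huv hxy hp hr hc
    simp only [Sym2.map_mk] at hp
    refine h2 (φ u) (φ v) (φ x) (φ y) (hadj _ _ huv) (hadj _ _ hxy) hp ?_ hc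
    let F : pageGraph (⊤ : SimpleGraph (Fin m)) (fun e => page (e.map φ))
        (page (s(u, v).map φ)) →g
        pageGraph (⊤ : SimpleGraph (Fin n)) page (page s(φ u, φ v)) :=
      { toFun := φ
        map_rel' := by
          intro a b hab
          obtain ⟨q1, q2⟩ := hab
          refine ⟨hadj _ _ q1, ?_⟩
          simpa only [Sym2.map_mk] using q2 }
    exact hr.map F

/-- Pairs at linear distance `d`. -/
def diffGraph (n d : ℕ) : SimpleGraph (Fin n) where
  Adj u v := u ≠ v ∧ ((v : ℕ) = u + d ∨ (u : ℕ) = v + d)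
  symm := ⟨fun _ _ h => ⟨h.1.symm, h.2.symm⟩⟩
  loopless := ⟨fun _ h => h.1 rfl⟩

/-- The pairs at linear distance `d` need only two pages (matchings). -/
theorem UB.diff (n d : ℕ) (hd : 1 ≤ d) : UB n (diffGraph n d) 2 := by
  classical
  let f : Fin n → Fin n → ℕ := fun u v => ((min u v : Fin n) : ℕ) / d % 2
  have hf : ∀ u v, f u v = f v u := by
    intro u v
    simp only [f]
    rw [min_comm]
  have hf1 : ∀ u v : Fin n, (v : ℕ) = u + d → f u v = (u : ℕ) / d % 2 := by
    intro u v h
    have : u ≤ v := by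
      rw [Fin.le_def]; omega
    simp only [f]
    rw [min_eq_left this]
  have hdiv : ∀ a : ℕ, (a + d) / d = a / d + 1 := fun a => Nat.add_div_right a (by omega)
  refine ⟨Sym2.lift ⟨f, hf⟩, ?_, ?_⟩
  · intro e
    induction e with
    | _ a b =>
      intro _
      rw [Sym2.lift_mk]
      exact Nat.mod_lt _ (by norm_num)
  · intro u v x y huv hxy hp hr ⟨c1, c2, c3⟩
    rw [Fin.lt_def] at c1 c2 c3
    rw [Sym2.lift_mk, Sym2.lift_mk] at hp
    rw [Sym2.lift_mk] at hr
    change (pageGraph (diffGraph n d) (Sym2.lift ⟨f, hf⟩) (f u v)).Reachable u x at hr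
    have hv : (v : ℕ) = u + d := by
      rcases huv.2 with h | h
      · exact h
      · omega
    have hpu := hf1 u v hv
    -- invariant
    have hinv : (x : ℕ) = u ∨ (x : ℕ) = u + d := by
      refine reach_inv (P := fun z : Fin n => (z : ℕ) = u ∨ (z : ℕ) = u + d) ?_ hr (Or.inl rfl)
      intro a b hab ha
      obtain ⟨q1, q2⟩ := hab
      rw [Sym2.lift_mk] at q2
      change f a b = f u v at q2
      rcases q1.2 with h | h
      · have h3 := hf1 a b h
        rw [h3, hpu] at q2
        rcases ha with ha | ha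
        · right; omega
        · exfalso
          rw [ha, hdiv] at q2
          omega
      · have h3 := hf1 b a h
        rw [hf, h3, hpu] at q2
        rcases ha with ha | ha
        · exfalso
          rw [← ha, h, hdiv] at q2
          omega
        · left; omega
    omega

/-- Pairs congruent modulo `6`. -/
def modGraph (n : ℕ) : SimpleGraph (Fin n) where
  Adj u v := u ≠ v ∧ (u : ℕ) % 6 = v % 6
  symm := ⟨fun _ _ h => ⟨h.1.symm, h.2.symm⟩⟩
  loopless := ⟨fun _ h => h.1 rfl⟩

theorem UB.mod {m k : ℕ} (h : UB m ⊤ k) : UB (6 * m) (modGraph (6 * m)) k := by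
  obtain ⟨page, h1, h2⟩ := h
  let φ : Fin (6 * m) → Fin m := fun u => ⟨(u : ℕ) / 6, by omega⟩
  have hφv : ∀ u, ((φ u : Fin m) : ℕ) = (u : ℕ) / 6 := fun _ => rfl
  have hadj : ∀ u v : Fin (6 * m), (modGraph (6 * m)).Adj u v →
      (⊤ : SimpleGraph (Fin m)).Adj (φ u) (φ v) := by
    intro u v huv
    rw [SimpleGraph.top_adj]
    intro h
    apply huv.1
    have h3 := congrArg Fin.val h
    rw [hφv, hφv] at h3
    have h4 := huv.2
    exact Fin.ext (by omega)
  refine ⟨fun e => page (e.map φ), ?_, ?_⟩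
  · intro e
    induction e with
    | _ a b =>
      intro he
      exact h1 s(φ a, φ b) (hadj a b he)
  · intro u v x y huv hxy hp hr ⟨c1, c2, c3⟩
    rw [Fin.lt_def] at c1 c2 c3
    simp only [Sym2.map_mk] at hp
    have hres : (x : ℕ) % 6 = (u : ℕ) % 6 := by
      refine reach_inv (P := fun z : Fin (6 * m) => (z : ℕ) % 6 = (u : ℕ) % 6) ?_ hr rfl
      intro a b hab ha
      rw [← ha]
      exact hab.1.2.symm
    have hr1 := huv.2
    have hr2 := hxy.2
    refine h2 (φ u) (φ v) (φ x) (φ y) (hadj _ _ huv) (hadj _ _ hxy) hp ?_ ?_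
    · let F : pageGraph (modGraph (6 * m)) (fun e => page (e.map φ))
          (page (s(u, v).map φ)) →g
          pageGraph (⊤ : SimpleGraph (Fin m)) page (page s(φ u, φ v)) :=
        { toFun := φ
          map_rel' := by
            intro a b hab
            obtain ⟨q1, q2⟩ := hab
            refine ⟨hadj _ _ q1, ?_⟩
            simpa only [Sym2.map_mk] using q2 }
      exact hr.map F
    · refine ⟨?_, ?_, ?_⟩ <;> rw [Fin.lt_def, hφv, hφv] <;> omega

/-- The pairs covered by a family of hexagons. -/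
def Fam.graph {n N : ℕ} (F : Fam n N) : SimpleGraph (Fin n) where
  Adj u v := u ≠ v ∧ ∃ i t, F.Covers i t u v
  symm := ⟨fun _ _ h => ⟨h.1.symm, by
    obtain ⟨i, t, h'⟩ := h.2
    exact ⟨i, t, h'.symm⟩⟩⟩
  loopless := ⟨fun _ h => h.1 rfl⟩

theorem rot_mod {n t z : ℕ} (h6 : n % 6 = 0) (ht : t < n) (hz : z < n) :
    (rot n t z + t) % 6 = z % 6 := by
  unfold rot; split_ifs <;> omega

/-- If `6 ∣ n` and the vertices of every hexagon are distinct modulo `6`, the pairs covered by
the `N` families need `6 N` pages. -/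
theorem Fam.ub {n N : ℕ} (F : Fam n N) (h6 : n % 6 = 0)
    (hd : ∀ i < N, ∀ p ∈ hexV (F.x i) (F.a i) (F.c i) (F.e i) (F.g i),
      ∀ q ∈ hexV (F.x i) (F.a i) (F.c i) (F.e i) (F.g i), p % 6 = q % 6 → p = q) :
    UB n F.graph (6 * N) := by
  classical
  have hcov : ∀ u v : Fin n, ∃ p : ℕ × ℕ, F.graph.Adj u v → F.Covers p.1 p.2 u v := by
    intro u v
    by_cases h : F.graph.Adj u v
    · obtain ⟨_, i, t, h'⟩ := h
      exact ⟨(i, t), fun _ => h'⟩
    · exact ⟨(0, 0), fun h' => absurd h' h⟩
  choose f hf using hcov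
  let pg : Fin n → Fin n → ℕ := fun u v =>
    6 * (f (min u v) (max u v)).1 + (f (min u v) (max u v)).2 % 6
  have hpg : ∀ u v, pg u v = pg v u := by
    intro u v
    simp only [pg]
    rw [min_comm, max_comm]
  have hcov' : ∀ u v : Fin n, F.graph.Adj u v →
      ∃ i t, pg u v = 6 * i + t % 6 ∧ F.Covers i t u v := by
    intro u v huv
    rcases lt_or_gt_of_ne huv.1 with h | h
    · refine ⟨_, _, rfl, ?_⟩
      have h1 : min u v = u := min_eq_left h.le
      have h2 : max u v = v := max_eq_right h.le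
      rw [h1, h2]
      exact hf u v huv
    · refine ⟨_, _, rfl, ?_⟩
      have h1 : min u v = v := min_eq_right h.le
      have h2 : max u v = u := max_eq_left h.le
      rw [h1, h2]
      exact (hf v u huv.symm).symm
  -- membership of the endpoints in the translate
  have hmem : ∀ {i t a b : ℕ}, F.Covers i t a b →
      rot n t a ∈ hexV (F.x i) (F.a i) (F.c i) (F.e i) (F.g i) := by
    intro i t a b h
    rcases h.2.2 with q | q
    · exact q.left_mem
    · exact q.right_mem
  -- uniqueness of the translate through a vertex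
  have huniq : ∀ {i t t' v : ℕ}, i < N → t < n → t' < n → v < n → t % 6 = t' % 6 →
      rot n t v ∈ hexV (F.x i) (F.a i) (F.c i) (F.e i) (F.g i) →
      rot n t' v ∈ hexV (F.x i) (F.a i) (F.c i) (F.e i) (F.g i) → t = t' := by
    intro i t t' v hi ht ht' hv hmod h1 h2
    have e1 := rot_mod h6 ht hv
    have e2 := rot_mod h6 ht' hv
    have h3 := hd i hi _ h1 _ h2 (by omega)
    have h4 := rot_rot ht hv (p := rot n t v) rfl
    have h5 := rot_rot ht' hv (p := rot n t' v) rfl
    rw [← h4, ← h5, h3]
  refine ⟨Sym2.lift ⟨pg, hpg⟩, ?_, ?_⟩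
  · intro e
    induction e with
    | _ a b =>
      intro he
      rw [Sym2.lift_mk]
      obtain ⟨i, t, h1, h2⟩ := hcov' a b he
      change pg a b < _
      rw [h1]
      have := h2.1
      omega
  · intro u v x y huv hxy hp hr ⟨c1, c2, c3⟩
    rw [Fin.lt_def] at c1 c2 c3
    rw [Sym2.lift_mk, Sym2.lift_mk] at hp
    rw [Sym2.lift_mk] at hr
    change pg u v = pg x y at hp
    change (pageGraph F.graph (Sym2.lift ⟨pg, hpg⟩) (pg u v)).Reachable u x at hr
    obtain ⟨i, t, e1, d1⟩ := hcov' u v huv
    obtain ⟨i', t', e2, d2⟩ := hcov' x y hxy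
    have ht : t < n := lt_of_lt_of_le d1.2.1 (F.hτ i d1.1)
    have ht' : t' < n := lt_of_lt_of_le d2.2.1 (F.hτ i' d2.1)
    rw [e1, e2] at hp
    have hii : i = i' := by omega
    subst hii
    have htt : t % 6 = t' % 6 := by omega
    have hx : rot n t x ∈ hexV (F.x i) (F.a i) (F.c i) (F.e i) (F.g i) := by
      refine reach_inv (P := fun z : Fin n =>
        rot n t z ∈ hexV (F.x i) (F.a i) (F.c i) (F.e i) (F.g i)) ?_ hr (hmem d1)
      intro a b hab ha
      obtain ⟨q1, q2⟩ := hab
      rw [Sym2.lift_mk] at q2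
      change pg a b = pg u v at q2
      obtain ⟨j, r, e3, d3⟩ := hcov' a b q1
      rw [e3, e1] at q2
      have hij : i = j := by omega
      subst hij
      have hr' : r < n := lt_of_lt_of_le d3.2.1 (F.hτ i d3.1)
      have : r = t := huniq d3.1 hr' ht a.2 (by omega) (hmem d3) ha
      subst this
      exact hmem d3.symm
    have hteq : t = t' := huniq d1.1 ht ht' x.2 htt hx (hmem d2)
    subst hteq
    have hi := d1.1
    exact rot_noncross (F.hx i hi) (F.ha i hi) (F.hc i hi) (F.he i hi) c1 c2 c3 y.2 ht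
      d1.2.2 d2.2.2
      (fun p q hpq => Hex.le (F.hx i hi) (F.ha i hi) (F.hc i hi) (F.he i hi) hpq)

/-- Crude bound: `2 n` pages. -/
theorem UB.crude (n : ℕ) : UB n ⊤ (2 * n) := by
  have h : ∀ m : ℕ, UB n (SimpleGraph.fromRel fun u v : Fin n =>
      (v : ℕ) < u + m ∧ (u : ℕ) < v) (2 * m) := by
    intro m
    induction m with
    | zero =>
      refine ⟨fun _ => 0, ?_, ?_⟩
      · intro e
        induction e with
        | _ a b =>
          intro he
          rw [SimpleGraph.mem_edgeSet, SimpleGraph.fromRel_adj] at he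
          omega
      · intro u v x y huv
        rw [SimpleGraph.fromRel_adj] at huv
        omega
    | succ m ih =>
      rcases Nat.eq_zero_or_pos m with hm | hm
      · subst hm
        refine ⟨fun _ => 0, fun _ _ => by norm_num, ?_⟩
        intro u v x y huv
        rw [SimpleGraph.fromRel_adj] at huv
        omega
      · refine ((ih.sup (UB.diff n m hm)).anti ?_).mono_right (by omega)
        intro u v huv
        rw [SimpleGraph.fromRel_adj] at huv
        obtain ⟨h1, h2⟩ := huv
        rw [SimpleGraph.sup_adj, SimpleGraph.fromRel_adj]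
        by_cases h3 : (v : ℕ) = u + m ∨ (u : ℕ) = v + m
        · exact Or.inr ⟨h1, h3⟩
        · left
          refine ⟨h1, ?_⟩
          omega
  refine (h n).anti ?_
  intro u v huv
  rw [SimpleGraph.top_adj] at huv
  rw [SimpleGraph.fromRel_adj]
  refine ⟨huv, ?_⟩
  have hu := u.2
  have hv := v.2
  have : (u : ℕ) ≠ v := fun h => huv (Fin.ext h)
  omega

end Pool.Agent.PageNum
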