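import Mathlib
import Pool.Agent.PageNum.UBook
import Pool.Agent.PageNum.Cyc

/-!
# The five families of hexagons on `108 S` points
-/

namespace Pool.Agent.PageNum

open Finset

/-- Five families; the index `i` stands for the pair `(j, f) = (i / 5, i % 5)`. -/
def famU (S : ℕ) : Fam (108 * S) (5 * S) where
  x i := if i % 5 = 0 then 12 * (i / 5) + 7 else
    if i % 5 = 1 then 12 * (i / 5) + 1 else
    if i % 5 = 2 then 12 * (i / 5) + 8 else
    if i % 5 = 3 then 12 * (i / 5) + 3 else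
    12 * (i / 5) + 5
  a i := if i % 5 = 0 then 36 * S + 2 + 6 * (i / 5) else
    if i % 5 = 1 then 36 * S - 3 + 6 * (i / 5) else
    if i % 5 = 2 then 36 * S + 5 + 6 * (i / 5) else
    if i % 5 = 3 then 36 * S + 1 + 6 * (i / 5) else
    36 * S + 4 + 6 * (i / 5)
  c i := if i % 5 = 0 then 60 * S - 3 - 6 * (i / 5) else
    if i % 5 = 1 then 60 * S - 7 - 6 * (i / 5) else
    if i % 5 = 2 then 60 * S - 5 - 6 * (i / 5) else
    if i % 5 = 3 then 60 * S - 2 - 6 * (i / 5) else
    60 * S - 4 - 6 * (i / 5)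
  e i := if i % 5 = 0 then 84 * S - 1 else
    if i % 5 = 1 then 84 * S - 2 else
    if i % 5 = 2 then 84 * S - 2 else
    if i % 5 = 3 then 84 * S - 1 else
    84 * S - 15 - 18 * (i / 5)
  g i := if i % 5 = 0 then 108 * S - 2 - 12 * (i / 5) else
    if i % 5 = 1 then 108 * S - 4 - 12 * (i / 5) else
    if i % 5 = 2 then 108 * S - 9 - 12 * (i / 5) else
    if i % 5 = 3 then 108 * S - 10 - 12 * (i / 5) else
    108 * S - 11 - 12 * (i / 5)
  τ _ := 108 * S
  hx i hi := by split_ifs <;> omega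
  ha i hi := by split_ifs <;> omega
  hc i hi := by split_ifs <;> omega
  he i hi := by split_ifs <;> omega
  hg i hi := by split_ifs <;> omega
  hτ i hi := le_rfl

theorem famU0 {S j : ℕ} (hj : j < S) {p d u o : ℕ} (hu : u < 108 * S)
    (hG : Good (108 * S) (12 * j + 7) (36 * S + 2 + 6 * j) (60 * S - 3 - 6 * j) (84 * S - 1) (108 * S - 2 - 12 * j) p d)
    (ho : (o = u + d ∧ u + d < 108 * S) ∨ (o + 108 * S = u + d ∧ 108 * S ≤ u + d)) :
    ∃ i t, (famU S).Covers i t u o := by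
  have h1 : (5 * j + 0) % 5 = 0 := by omega
  have h2 : (5 * j + 0) / 5 = j := by omega
  refine ⟨5 * j + 0, _, (famU S).covers_full (i := 5 * j + 0) (p := p) (by omega) rfl ?_ hu ho⟩
  simp only [famU, h1, h2]
  exact hG

theorem famU1 {S j : ℕ} (hj : j < S) {p d u o : ℕ} (hu : u < 108 * S)
    (hG : Good (108 * S) (12 * j + 1) (36 * S - 3 + 6 * j) (60 * S - 7 - 6 * j) (84 * S - 2) (108 * S - 4 - 12 * j) p d)
    (ho : (o = u + d ∧ u + d < 108 * S) ∨ (o + 108 * S = u + d ∧ 108 * S ≤ u + d)) :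
    ∃ i t, (famU S).Covers i t u o := by
  have h1 : (5 * j + 1) % 5 = 1 := by omega
  have h2 : (5 * j + 1) / 5 = j := by omega
  refine ⟨5 * j + 1, _, (famU S).covers_full (i := 5 * j + 1) (p := p) (by omega) rfl ?_ hu ho⟩
  simp only [famU, h1, h2]
  exact hG

theorem famU2 {S j : ℕ} (hj : j < S) {p d u o : ℕ} (hu : u < 108 * S)
    (hG : Good (108 * S) (12 * j + 8) (36 * S + 5 + 6 * j) (60 * S - 5 - 6 * j) (84 * S - 2) (108 * S - 9 - 12 * j) p d)
    (ho : (o = u + d ∧ u + d < 108 * S) ∨ (o + 108 * S = u + d ∧ 108 * S ≤ u + d)) :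
    ∃ i t, (famU S).Covers i t u o := by
  have h1 : (5 * j + 2) % 5 = 2 := by omega
  have h2 : (5 * j + 2) / 5 = j := by omega
  refine ⟨5 * j + 2, _, (famU S).covers_full (i := 5 * j + 2) (p := p) (by omega) rfl ?_ hu ho⟩
  simp only [famU, h1, h2]
  exact hG

theorem famU3 {S j : ℕ} (hj : j < S) {p d u o : ℕ} (hu : u < 108 * S)
    (hG : Good (108 * S) (12 * j + 3) (36 * S + 1 + 6 * j) (60 * S - 2 - 6 * j) (84 * S - 1) (108 * S - 10 - 12 * j) p d)
    (ho : (o = u + d ∧ u + d < 108 * S) ∨ (o + 108 * S = u + d ∧ 108 * S ≤ u + d)) :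
    ∃ i t, (famU S).Covers i t u o := by
  have h1 : (5 * j + 3) % 5 = 3 := by omega
  have h2 : (5 * j + 3) / 5 = j := by omega
  refine ⟨5 * j + 3, _, (famU S).covers_full (i := 5 * j + 3) (p := p) (by omega) rfl ?_ hu ho⟩
  simp only [famU, h1, h2]
  exact hG

theorem famU4 {S j : ℕ} (hj : j < S) {p d u o : ℕ} (hu : u < 108 * S)
    (hG : Good (108 * S) (12 * j + 5) (36 * S + 4 + 6 * j) (60 * S - 4 - 6 * j) (84 * S - 15 - 18 * j) (108 * S - 11 - 12 * j) p d)
    (ho : (o = u + d ∧ u + d < 108 * S) ∨ (o + 108 * S = u + d ∧ 108 * S ≤ u + d)) :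
    ∃ i t, (famU S).Covers i t u o := by
  have h1 : (5 * j + 4) % 5 = 4 := by omega
  have h2 : (5 * j + 4) / 5 = j := by omega
  refine ⟨5 * j + 4, _, (famU S).covers_full (i := 5 * j + 4) (p := p) (by omega) rfl ?_ hu ho⟩
  simp only [famU, h1, h2]
  exact hG

theorem famU_cover {S : ℕ} {d u o : ℕ} (h1 : 1 ≤ d) (h2 : 2 * d ≤ 108 * S) (hu : u < 108 * S)
    (h6 : d % 6 ≠ 0) (e1 : d ≠ 42 * S - 3) (e2 : d ≠ 42 * S + 1) (e3 : d ≠ 42 * S + 3)
    (e4 : d ≠ 48 * S - 2) (e5 : d ≠ 48 * S - 1)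
    (ho : (o = u + d ∧ u + d < 108 * S) ∨ (o + 108 * S = u + d ∧ 108 * S ≤ u + d)) :
    ∃ i t, (famU S).Covers i t u o := by
  by_cases c1 : d < 12 * S
  · have hr : d % 12 = 1 ∨ d % 12 = 2 ∨ d % 12 = 3 ∨ d % 12 = 4 ∨ d % 12 = 5 ∨ d % 12 = 7 ∨ d % 12 = 8 ∨ d % 12 = 9 ∨ d % 12 = 10 ∨ d % 12 = 11 := by omega
    rcases hr with hr | hr | hr | hr | hr | hr | hr | hr | hr | hr
    · exact famU1 (j := d / 12) (p := 0) (by omega) hu (g1 (by omega) (by omega) (by omega) (by omega)) ho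
    · exact famU0 (j := d / 12) (p := 108 * S - 2 - 12 * (d / 12)) (by omega) hu (g6 (by omega) (by omega) (by omega)) ho
    · exact famU3 (j := d / 12) (p := 0) (by omega) hu (g1 (by omega) (by omega) (by omega) (by omega)) ho
    · exact famU1 (j := d / 12) (p := 108 * S - 4 - 12 * (d / 12)) (by omega) hu (g6 (by omega) (by omega) (by omega)) ho
    · exact famU4 (j := d / 12) (p := 0) (by omega) hu (g1 (by omega) (by omega) (by omega) (by omega)) ho
    · exact famU0 (j := d / 12) (p := 0) (by omega) hu (g1 (by omega) (by omega) (by omega) (by omega)) ho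
    · exact famU2 (j := d / 12) (p := 0) (by omega) hu (g1 (by omega) (by omega) (by omega) (by omega)) ho
    · exact famU2 (j := d / 12) (p := 108 * S - 9 - 12 * (d / 12)) (by omega) hu (g6 (by omega) (by omega) (by omega)) ho
    · exact famU3 (j := d / 12) (p := 108 * S - 10 - 12 * (d / 12)) (by omega) hu (g6 (by omega) (by omega) (by omega)) ho
    · exact famU4 (j := d / 12) (p := 108 * S - 11 - 12 * (d / 12)) (by omega) hu (g6 (by omega) (by omega) (by omega)) ho
  by_cases c2 : d < 24 * S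
  · have hr : d % 12 = 1 ∨ d % 12 = 2 ∨ d % 12 = 3 ∨ d % 12 = 4 ∨ d % 12 = 5 ∨ d % 12 = 7 ∨ d % 12 = 8 ∨ d % 12 = 9 ∨ d % 12 = 10 ∨ d % 12 = 11 := by omega
    rcases hr with hr | hr | hr | hr | hr | hr | hr | hr | hr | hr
    · exact famU4 (j := 2 * S - 1 - d / 12) (p := 60 * S - 4 - 6 * (2 * S - 1 - d / 12)) (by omega) hu (g4 (by omega) (by omega) (by omega) (by omega)) ho
    · exact famU2 (j := 2 * S - 1 - d / 12) (p := 36 * S + 5 + 6 * (2 * S - 1 - d / 12)) (by omega) hu (g3 (by omega) (by omega) (by omega) (by omega)) ho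
    · exact famU3 (j := 2 * S - 1 - d / 12) (p := 84 * S - 1) (by omega) hu (g5 (by omega) (by omega) (by omega) (by omega)) ho
    · exact famU4 (j := 2 * S - 1 - d / 12) (p := 36 * S + 4 + 6 * (2 * S - 1 - d / 12)) (by omega) hu (g3 (by omega) (by omega) (by omega) (by omega)) ho
    · exact famU2 (j := 2 * S - 1 - d / 12) (p := 84 * S - 2) (by omega) hu (g5 (by omega) (by omega) (by omega) (by omega)) ho
    · exact famU0 (j := 2 * S - 1 - d / 12) (p := 36 * S + 2 + 6 * (2 * S - 1 - d / 12)) (by omega) hu (g3 (by omega) (by omega) (by omega) (by omega)) ho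
    · exact famU1 (j := 2 * S - 1 - d / 12) (p := 36 * S - 3 + 6 * (2 * S - 1 - d / 12)) (by omega) hu (g3 (by omega) (by omega) (by omega) (by omega)) ho
    · exact famU3 (j := 2 * S - 1 - d / 12) (p := 36 * S + 1 + 6 * (2 * S - 1 - d / 12)) (by omega) hu (g3 (by omega) (by omega) (by omega) (by omega)) ho
    · exact famU1 (j := 2 * S - 1 - d / 12) (p := 84 * S - 2) (by omega) hu (g5 (by omega) (by omega) (by omega) (by omega)) ho
    · exact famU0 (j := 2 * S - 1 - d / 12) (p := 84 * S - 1) (by omega) hu (g5 (by omega) (by omega) (by omega) (by omega)) ho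
  by_cases c3 : d < 30 * S
  · have hr : d % 6 = 1 ∨ d % 6 = 2 ∨ d % 6 = 3 ∨ d % 6 = 4 ∨ d % 6 = 5 := by omega
    rcases hr with hr | hr | hr | hr | hr
    · exact famU3 (j := d / 6 - 4 * S) (p := 60 * S - 2 - 6 * (d / 6 - 4 * S)) (by omega) hu (g4 (by omega) (by omega) (by omega) (by omega)) ho
    · exact famU0 (j := d / 6 - 4 * S) (p := 60 * S - 3 - 6 * (d / 6 - 4 * S)) (by omega) hu (g4 (by omega) (by omega) (by omega) (by omega)) ho
    · exact famU2 (j := d / 6 - 4 * S) (p := 60 * S - 5 - 6 * (d / 6 - 4 * S)) (by omega) hu (g4 (by omega) (by omega) (by omega) (by omega)) ho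
    · exact famU4 (j := d / 6 - 4 * S) (p := 84 * S - 15 - 18 * (d / 6 - 4 * S)) (by omega) hu (g5 (by omega) (by omega) (by omega) (by omega)) ho
    · exact famU1 (j := d / 6 - 4 * S) (p := 60 * S - 7 - 6 * (d / 6 - 4 * S)) (by omega) hu (g4 (by omega) (by omega) (by omega) (by omega)) ho
  by_cases c4 : d < 36 * S
  · have hr : d % 6 = 1 ∨ d % 6 = 2 ∨ d % 6 = 3 ∨ d % 6 = 4 ∨ d % 6 = 5 := by omega
    rcases hr with hr | hr | hr | hr | hr
    · exact famU0 (j := 6 * S - 1 - d / 6) (p := 12 * (6 * S - 1 - d / 6) + 7) (by omega) hu (g2 (by omega) (by omega) (by omega) (by omega)) ho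
    · exact famU1 (j := 6 * S - 1 - d / 6) (p := 12 * (6 * S - 1 - d / 6) + 1) (by omega) hu (g2 (by omega) (by omega) (by omega) (by omega)) ho
    · exact famU2 (j := 6 * S - 1 - d / 6) (p := 12 * (6 * S - 1 - d / 6) + 8) (by omega) hu (g2 (by omega) (by omega) (by omega) (by omega)) ho
    · exact famU3 (j := 6 * S - 1 - d / 6) (p := 12 * (6 * S - 1 - d / 6) + 3) (by omega) hu (g2 (by omega) (by omega) (by omega) (by omega)) ho
    · exact famU4 (j := 6 * S - 1 - d / 6) (p := 12 * (6 * S - 1 - d / 6) + 5) (by omega) hu (g2 (by omega) (by omega) (by omega) (by omega)) ho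
  by_cases c5 : d < 42 * S
  · have hr : d % 6 = 1 ∨ d % 6 = 2 ∨ d % 6 = 3 ∨ d % 6 = 4 ∨ d % 6 = 5 := by omega
    rcases hr with hr | hr | hr | hr | hr
    · exact famU3 (j := (d - (36 * S + 1)) / 6) (p := 0) (by omega) hu (g7 (by omega) (by omega) (by omega) (by omega)) ho
    · exact famU0 (j := (d - (36 * S + 2)) / 6) (p := 0) (by omega) hu (g7 (by omega) (by omega) (by omega) (by omega)) ho
    · exact famU1 (j := (d + 3 - 36 * S) / 6) (p := 0) (by omega) hu (g7 (by omega) (by omega) (by omega) (by omega)) ho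
    · exact famU4 (j := (d - (36 * S + 4)) / 6) (p := 0) (by omega) hu (g7 (by omega) (by omega) (by omega) (by omega)) ho
    · exact famU2 (j := (d - (36 * S + 5)) / 6) (p := 0) (by omega) hu (g7 (by omega) (by omega) (by omega) (by omega)) ho
  by_cases c6 : d < 48 * S
  · have hr : d % 6 = 1 ∨ d % 6 = 2 ∨ d % 6 = 3 ∨ d % 6 = 4 ∨ d % 6 = 5 := by omega
    rcases hr with hr | hr | hr | hr | hr
    · exact famU0 (j := (48 * S + 1 - d) / 6) (p := 60 * S - 3 - 6 * ((48 * S + 1 - d) / 6)) (by omega) hu (g8 (by omega) (by omega) (by omega) (by omega)) ho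
    · exact famU2 (j := (48 * S - 4 - d) / 6) (p := 60 * S - 5 - 6 * ((48 * S - 4 - d) / 6)) (by omega) hu (g8 (by omega) (by omega) (by omega) (by omega)) ho
    · exact famU1 (j := (48 * S + 3 - d) / 6) (p := 60 * S - 7 - 6 * ((48 * S + 3 - d) / 6)) (by omega) hu (g8 (by omega) (by omega) (by omega) (by omega)) ho
    · exact famU3 (j := (48 * S - 8 - d) / 6) (p := 60 * S - 2 - 6 * ((48 * S - 8 - d) / 6)) (by omega) hu (g8 (by omega) (by omega) (by omega) (by omega)) ho
    · exact famU4 (j := (48 * S - 7 - d) / 6) (p := 60 * S - 4 - 6 * ((48 * S - 7 - d) / 6)) (by omega) hu (g8 (by omega) (by omega) (by omega) (by omega)) ho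
  by_cases c7 : d = 48 * S + 1
  · exact famU0 (j := 0) (p := 60 * S - 3 - 6 * (0)) (by omega) hu (g8 (by omega) (by omega) (by omega) (by omega)) ho
  have hr : d % 6 = 1 ∨ d % 6 = 2 ∨ d % 6 = 3 ∨ d % 6 = 4 ∨ d % 6 = 5 := by omega
  rcases hr with hr | hr | hr | hr | hr
  · exact famU1 (j := (d - (48 * S + 7)) / 6) (p := 60 * S - 7 - 6 * ((d - (48 * S + 7)) / 6)) (by omega) hu (g9 (by omega) (by omega) (by omega)) ho
  · exact famU3 (j := (d - (48 * S + 2)) / 6) (p := 60 * S - 2 - 6 * ((d - (48 * S + 2)) / 6)) (by omega) hu (g9 (by omega) (by omega) (by omega)) ho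
  · exact famU0 (j := (d - (48 * S + 3)) / 6) (p := 60 * S - 3 - 6 * ((d - (48 * S + 3)) / 6)) (by omega) hu (g9 (by omega) (by omega) (by omega)) ho
  · exact famU4 (j := (d - (48 * S + 4)) / 6) (p := 60 * S - 4 - 6 * ((d - (48 * S + 4)) / 6)) (by omega) hu (g9 (by omega) (by omega) (by omega)) ho
  · exact famU2 (j := (d - (48 * S + 5)) / 6) (p := 60 * S - 5 - 6 * ((d - (48 * S + 5)) / 6)) (by omega) hu (g9 (by omega) (by omega) (by omega)) ho

end Pool.Agent.PageNum
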