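import Mathlib
import Pool.Agent.PageNum.UFam

/-!
# `pn_u(K_n) ≤ n / 3 + O(log n)`
-/

namespace Pool.Agent.PageNum

open Finset

theorem famU_distinct (S : ℕ) : ∀ i < 5 * S,
    ∀ p ∈ hexV ((famU S).x i) ((famU S).a i) ((famU S).c i) ((famU S).e i) ((famU S).g i),
      ∀ q ∈ hexV ((famU S).x i) ((famU S).a i) ((famU S).c i) ((famU S).e i) ((famU S).g i),
        p % 6 = q % 6 → p = q := by
  intro i hi p hp q hq h
  have h5 : i % 5 = 0 ∨ i % 5 = 1 ∨ i % 5 = 2 ∨ i % 5 = 3 ∨ i % 5 = 4 := by omega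
  rcases h5 with h5 | h5 | h5 | h5 | h5 <;>
  · simp only [famU, h5, hexV, mem_insert, mem_singleton, Nat.one_ne_zero, OfNat.ofNat_ne_zero,
      OfNat.ofNat_ne_one, Nat.reduceEqDiff, if_true, if_false] at hp hq
    rcases hp with hp | hp | hp | hp | hp | hp <;>
    rcases hq with hq | hq | hq | hq | hq | hq <;> omega

theorem UB.mod' {n m k : ℕ} (h : UB m ⊤ k) (hn : n = 6 * m) : UB n (modGraph n) k := by
  subst hn
  exact h.mod

/-- One step of the recursion. -/
theorem UB.step {S k : ℕ} (hS : 1 ≤ S) (h : UB (18 * S) ⊤ k) :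
    UB (108 * S) ⊤ (30 * S + 20 + k) := by
  have hF := (famU S).ub (by omega) (famU_distinct S)
  have hM := h.mod' (n := 108 * S) (by ring)
  have d1 := UB.diff (108 * S) (42 * S - 3) (by omega)
  have d2 := UB.diff (108 * S) (42 * S + 1) (by omega)
  have d3 := UB.diff (108 * S) (42 * S + 3) (by omega)
  have d4 := UB.diff (108 * S) (48 * S - 2) (by omega)
  have d5 := UB.diff (108 * S) (48 * S - 1) (by omega)
  have f1 := UB.diff (108 * S) (66 * S + 3) (by omega)
  have f2 := UB.diff (108 * S) (66 * S - 1) (by omega)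
  have f3 := UB.diff (108 * S) (66 * S - 3) (by omega)
  have f4 := UB.diff (108 * S) (60 * S + 2) (by omega)
  have f5 := UB.diff (108 * S) (60 * S + 1) (by omega)
  have key := ((((((((((hF.sup hM).sup d1).sup d2).sup d3).sup d4).sup d5).sup f1).sup f2).sup
    f3).sup f4).sup f5
  refine (key.anti ?_).mono_right (by omega)
  intro u v huv
  rw [SimpleGraph.top_adj] at huv
  simp only [SimpleGraph.sup_adj]
  -- linear difference
  have hu := u.2
  have hv := v.2
  have hne : (u : ℕ) ≠ v := fun h => huv (Fin.ext h)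
  by_cases g0 : (u : ℕ) % 6 = v % 6
  · have : (modGraph (108 * S)).Adj u v := ⟨huv, g0⟩
    simp only [this, or_true, true_or]
  have hdiff : ∀ d : ℕ, ((v : ℕ) = u + d ∨ (u : ℕ) = v + d) → (diffGraph (108 * S) d).Adj u v :=
    fun d hd => ⟨huv, hd⟩
  by_cases g1 : (v : ℕ) = u + (42 * S - 3) ∨ (u : ℕ) = v + (42 * S - 3)
  · simp only [hdiff _ g1, or_true, true_or]
  by_cases g2 : (v : ℕ) = u + (42 * S + 1) ∨ (u : ℕ) = v + (42 * S + 1)
  · simp only [hdiff _ g2, or_true, true_or]
  by_cases g3 : (v : ℕ) = u + (42 * S + 3) ∨ (u : ℕ) = v + (42 * S + 3)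
  · simp only [hdiff _ g3, or_true, true_or]
  by_cases g4 : (v : ℕ) = u + (48 * S - 2) ∨ (u : ℕ) = v + (48 * S - 2)
  · simp only [hdiff _ g4, or_true, true_or]
  by_cases g5 : (v : ℕ) = u + (48 * S - 1) ∨ (u : ℕ) = v + (48 * S - 1)
  · simp only [hdiff _ g5, or_true, true_or]
  by_cases k1 : (v : ℕ) = u + (66 * S + 3) ∨ (u : ℕ) = v + (66 * S + 3)
  · simp only [hdiff _ k1, or_true, true_or]
  by_cases k2 : (v : ℕ) = u + (66 * S - 1) ∨ (u : ℕ) = v + (66 * S - 1)
  · simp only [hdiff _ k2, or_true, true_or]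
  by_cases k3 : (v : ℕ) = u + (66 * S - 3) ∨ (u : ℕ) = v + (66 * S - 3)
  · simp only [hdiff _ k3, or_true, true_or]
  by_cases k4 : (v : ℕ) = u + (60 * S + 2) ∨ (u : ℕ) = v + (60 * S + 2)
  · simp only [hdiff _ k4, or_true, true_or]
  by_cases k5 : (v : ℕ) = u + (60 * S + 1) ∨ (u : ℕ) = v + (60 * S + 1)
  · simp only [hdiff _ k5, or_true]
  have hcov : (famU S).graph.Adj u v := by
    refine ⟨huv, ?_⟩
    rcases Nat.lt_or_gt_of_ne hne with hlt | hlt
    · rcases Nat.lt_or_ge (108 * S) (2 * (v - u)) with hb | hb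
      · obtain ⟨i, t, hc⟩ := famU_cover (S := S) (d := 108 * S - (v - u)) (u := v) (o := u)
          (by omega) (by omega) hv (by omega) (by omega) (by omega) (by omega) (by omega)
          (by omega) (Or.inr ⟨by omega, by omega⟩)
        exact ⟨i, t, hc.symm⟩
      · exact famU_cover (S := S) (d := v - u) (u := u) (o := v)
          (by omega) (by omega) hu (by omega) (by omega) (by omega) (by omega) (by omega)
          (by omega) (Or.inl ⟨by omega, by omega⟩)
    · rcases Nat.lt_or_ge (108 * S) (2 * (u - v)) with hb | hb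
      · exact famU_cover (S := S) (d := 108 * S - (u - v)) (u := u) (o := v)
          (by omega) (by omega) hu (by omega) (by omega) (by omega) (by omega) (by omega)
          (by omega) (Or.inr ⟨by omega, by omega⟩)
      · obtain ⟨i, t, hc⟩ := famU_cover (S := S) (d := u - v) (u := v) (o := u)
          (by omega) (by omega) hv (by omega) (by omega) (by omega) (by omega) (by omega)
          (by omega) (Or.inl ⟨by omega, by omega⟩)
        exact ⟨i, t, hc.symm⟩
  simp only [hcov, true_or]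

/-- `3 pn_u(K_n) ≤ n + 168 (log₂ n + 1)`. -/
theorem UB.bound (N : ℕ) (hN : 1 ≤ N) :
    ∃ K, UB N ⊤ K ∧ 3 * K ≤ N + 168 * (Nat.log 2 N + 1) := by
  induction N using Nat.strong_induction_on with
  | _ N ih =>
    rcases Nat.lt_or_ge N 54 with h | h
    · refine ⟨2 * N, UB.crude N, ?_⟩
      rcases Nat.lt_or_ge N 32 with h' | h'
      · omega
      · have : 5 ≤ Nat.log 2 N := Nat.le_log_of_pow_le (by norm_num) (by omega)
        omega
    · set S := (N + 107) / 108 with hS
      have hS1 : 1 ≤ S := by omega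
      obtain ⟨K, hK1, hK2⟩ := ih (18 * S) (by omega) (by omega)
      refine ⟨30 * S + 20 + K, (hK1.step hS1).restrict (by omega), ?_⟩
      have hlog : Nat.log 2 (18 * S) + 1 ≤ Nat.log 2 N := by
        have h1 : Nat.log 2 (18 * S * 2) = Nat.log 2 (18 * S) + 1 :=
          Nat.log_mul_base (by norm_num) (by omega)
        rw [← h1]
        exact Nat.log_mono_right (by omega)
      have : 168 * (Nat.log 2 (18 * S) + 1 + 1) ≤ 168 * (Nat.log 2 N + 1) := by omega
      omega

end Pool.Agent.PageNum
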